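import Mathlib
import Pool.Agent.X317.RP.Transfer

/-!
# Integral cycles and the dimensions of the spaces of cycles over different fields
-/

set_option autoImplicit false
set_option linter.all false

open Finset Pool.Agent.H677R3.EdgeReg

namespace Pool.Agent.X317.Cone

section span

variable {Ω : Type*} [Fintype Ω] [DecidableEq Ω]

/-- the reduction of an integral vector -/
def cst (k : Type*) [CommRing k] (h : Ω → ℤ) : Ω → k := fun ω => (h ω : k)

/-- the span of the reductions -/
def spn (k : Type*) [CommRing k] (V : Submodule ℤ (Ω → ℤ)) : Submodule k (Ω → k) :=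
  Submodule.span k (cst k '' (V : Set (Ω → ℤ)))

/-- **The dimension of the span of the reductions of a saturated lattice is its rank.** -/
theorem finrank_spn (k : Type*) [Field k] (V : Submodule ℤ (Ω → ℤ))
    (hV : ∀ (N : ℤ) (h : Ω → ℤ), N ≠ 0 → N • h ∈ V → h ∈ V) :
    Module.finrank k ↥(spn k V) = Module.finrank ℤ ↥V := by
  classical
  have i1 : Module.IsTorsionFree ℤ ((Ω → ℤ) ⧸ V) := by
    rw [Module.isTorsionFree_iff_smul_eq_zero]
    intro c y
    induction y using Submodule.Quotient.induction_on with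
    | _ z =>
      intro h
      by_cases hc : c = 0
      · exact Or.inl hc
      right
      rw [← Submodule.Quotient.mk_smul, Submodule.Quotient.mk_eq_zero] at h
      rw [Submodule.Quotient.mk_eq_zero]
      exact hV c z hc h
  have i3 : Module.Free ℤ ((Ω → ℤ) ⧸ V) := Module.free_of_finite_type_torsion_free'
  obtain ⟨s, hs⟩ := Module.projective_lifting_property V.mkQ LinearMap.id V.mkQ_surjective
  have hπ : ∀ h : Ω → ℤ, h - s (V.mkQ h) ∈ V := by
    intro h
    rw [← Submodule.Quotient.mk_eq_zero, Submodule.Quotient.mk_sub, sub_eq_zero]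
    exact (LinearMap.congr_fun hs (V.mkQ h)).symm
  have hs0 : ∀ h ∈ V, s (V.mkQ h) = 0 := by
    intro h hh
    have : V.mkQ h = 0 := (Submodule.Quotient.mk_eq_zero V).2 hh
    rw [this, map_zero]
  let π : (Ω → ℤ) →ₗ[ℤ] ↥V := LinearMap.codRestrict V (LinearMap.id - s.comp V.mkQ) hπ
  have hπV : ∀ v : ↥V, π v = v := by
    intro v
    apply Subtype.ext
    change (v : Ω → ℤ) - s (V.mkQ v) = v
    rw [hs0 _ v.2, sub_zero]
  let b := Module.finBasis ℤ ↥V
  have hlin : ∀ (c : Fin (Module.finrank ℤ ↥V)) (h : Ω → ℤ),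
      b.coord c (π h) = ∑ ω, h ω * b.coord c (π (Pi.single ω 1)) := by
    intro c h
    have h1 : h = ∑ ω, h ω • (Pi.single ω 1 : Ω → ℤ) := by
      funext ω
      rw [Finset.sum_apply]
      simp [Pi.single_apply]
    conv_lhs => rw [h1]
    rw [map_sum, map_sum]
    refine Finset.sum_congr rfl fun ω _ => ?_
    rw [map_zsmul, map_zsmul, smul_eq_mul]
  let dd : Fin (Module.finrank ℤ ↥V) → (Ω → k) → k := fun c h =>
    ∑ ω, h ω * ((b.coord c (π (Pi.single ω 1)) : ℤ) : k)
  have hdd : ∀ c c', dd c (cst k (b c' : Ω → ℤ)) = if c' = c then 1 else 0 := by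
    intro c c'
    have h1 := hlin c (b c' : Ω → ℤ)
    rw [hπV] at h1
    have h2 : ((b.coord c (b c') : ℤ) : k) = dd c (cst k (b c' : Ω → ℤ)) := by
      rw [h1]
      push_cast
      rfl
    rw [← h2, Module.Basis.coord_apply, Module.Basis.repr_self, Finsupp.single_apply]
    split_ifs <;> simp
  have hind : LinearIndependent k (fun c => cst k (b c : Ω → ℤ)) := by
    rw [Fintype.linearIndependent_iff]
    intro g hg c
    have h1 : dd c (∑ c', g c' • cst k (b c' : Ω → ℤ)) = g c := by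
      have h2 : dd c (∑ c', g c' • cst k (b c' : Ω → ℤ)) =
          ∑ c', g c' * dd c (cst k (b c' : Ω → ℤ)) := by
        simp only [dd, Finset.sum_apply, Pi.smul_apply, smul_eq_mul, Finset.sum_mul,
          Finset.mul_sum]
        rw [Finset.sum_comm]
        refine Finset.sum_congr rfl fun _ _ => Finset.sum_congr rfl fun _ _ => by ring
      rw [h2]
      simp [hdd]
    rw [hg] at h1
    rw [← h1]
    simp [dd]
  have hspan : spn k V = Submodule.span k (Set.range fun c => cst k (b c : Ω → ℤ)) := by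
    apply le_antisymm
    · rw [spn, Submodule.span_le]
      rintro _ ⟨h, hh, rfl⟩
      have h1 := b.sum_repr ⟨h, hh⟩
      have h2 : cst k h = ∑ c, ((b.repr ⟨h, hh⟩ c : ℤ) : k) • cst k (b c : Ω → ℤ) := by
        have h3 := congrArg (fun v : ↥V => (v : Ω → ℤ)) h1
        simp only at h3
        funext ω
        have h4 := congrFun h3 ω
        rw [Finset.sum_apply]
        simp only [cst, Pi.smul_apply, smul_eq_mul]
        rw [← h4, AddSubmonoidClass.coe_finsetSum, Finset.sum_apply]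
        push_cast
        refine Finset.sum_congr rfl fun c _ => ?_
        simp
      rw [SetLike.mem_coe, h2]
      exact Submodule.sum_mem _ fun c _ => Submodule.smul_mem _ _ (Submodule.subset_span ⟨c, rfl⟩)
    · rw [Submodule.span_le]
      rintro _ ⟨c, rfl⟩
      exact Submodule.subset_span ⟨_, (b c).2, rfl⟩
  rw [hspan, finrank_span_eq_card hind, Fintype.card_fin]

end span

section complex

variable {n : ℕ}

/-- the differential -/
def cdL (A : Type*) [CommRing A] : (Finset (Fin n) → A) →ₗ[A] (Finset (Fin n) → A) where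
  toFun a := cd a
  map_add' a b := by
    funext T
    exact cd_add a b T
  map_smul' c a := by
    funext T
    exact cd_smul c a T

/-- the chains of degree `i` supported on `Kf` -/
def Cc (A : Type*) [CommRing A] (Kf : Finset (Fin n) → Prop) (i : ℕ) :
    Submodule A (Finset (Fin n) → A) where
  carrier := {a | ∀ T, a T ≠ 0 → Kf T ∧ T.card = i}
  add_mem' := by
    intro a b ha hb T hT
    by_cases h : a T = 0
    · refine hb T fun h' => hT ?_
      rw [Pi.add_apply, h, h', add_zero]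
    · exact ha T h
  zero_mem' := fun T hT => absurd rfl hT
  smul_mem' := by
    intro c a ha T hT
    refine ha T fun h => hT ?_
    rw [Pi.smul_apply, h, smul_zero]

/-- the cycles of degree `i` -/
def Zc (A : Type*) [CommRing A] (Kf : Finset (Fin n) → Prop) (i : ℕ) :
    Submodule A (Finset (Fin n) → A) := Cc A Kf i ⊓ LinearMap.ker (cdL A)

/-- the boundaries of degree `i` -/
def Bc (A : Type*) [CommRing A] (Kf : Finset (Fin n) → Prop) (i : ℕ) :
    Submodule A (Finset (Fin n) → A) := (Cc A Kf (i + 1)).map (cdL A)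

theorem mem_Cc {A : Type*} [CommRing A] {Kf : Finset (Fin n) → Prop} {i : ℕ}
    {a : Finset (Fin n) → A} : a ∈ Cc A Kf i ↔ ∀ T, a T ≠ 0 → Kf T ∧ T.card = i := Iff.rfl

theorem mem_Zc {A : Type*} [CommRing A] {Kf : Finset (Fin n) → Prop} {i : ℕ}
    {a : Finset (Fin n) → A} : a ∈ Zc A Kf i ↔
      (∀ T, a T ≠ 0 → Kf T ∧ T.card = i) ∧ ∀ T, cd a T = 0 := by
  rw [Zc, Submodule.mem_inf, mem_Cc, LinearMap.mem_ker]
  exact and_congr_right fun _ => funext_iff

theorem mem_Bc {A : Type*} [CommRing A] {Kf : Finset (Fin n) → Prop} {i : ℕ}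
    {a : Finset (Fin n) → A} : a ∈ Bc A Kf i ↔
      ∃ g : Finset (Fin n) → A, (∀ T, g T ≠ 0 → Kf T ∧ T.card = i + 1) ∧ ∀ T, cd g T = a T := by
  rw [Bc, Submodule.mem_map]
  refine exists_congr fun g => and_congr_right fun _ => ?_
  exact funext_iff

/-- the multigraded Betti number -/
noncomputable def mb (k : Type*) [Field k] (Kf : Finset (Fin n) → Prop) (i : ℕ) : ℕ :=
  Module.finrank k (↥(Zc k Kf i) ⧸ (Bc k Kf i).submoduleOf (Zc k Kf i))

theorem Bc_le {A : Type*} [CommRing A] {Kf : Finset (Fin n) → Prop}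
    (hdown : ∀ T j, j ∉ T → Kf (insert j T) → Kf T) (i : ℕ) : Bc A Kf i ≤ Zc A Kf i := by
  intro a ha
  obtain ⟨g, hg, hga⟩ := mem_Bc.1 ha
  rw [mem_Zc]
  refine ⟨fun T hT => ?_, fun T => ?_⟩
  · rw [← hga] at hT
    unfold cd at hT
    obtain ⟨j, hj, hj2⟩ := Finset.exists_ne_zero_of_sum_ne_zero hT
    rw [Finset.mem_compl] at hj
    have h4 := hg (insert j T) (fun h5 => hj2 (by rw [h5, mul_zero]))
    rw [Finset.card_insert_of_notMem hj] at h4
    exact ⟨hdown T j hj h4.1, by omega⟩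
  · have : a = cd g := funext fun T => (hga T).symm
    rw [this, cd_cd]

theorem finrank_Cc (k : Type*) [Field k] (Kf : Finset (Fin n) → Prop) (i : ℕ) :
    Module.finrank k ↥(Cc k Kf i) = open Classical in
      (univ.filter fun T : Finset (Fin n) => Kf T ∧ T.card = i).card := by
  classical
  let e : ↥(Cc k Kf i) ≃ₗ[k] ({T : Finset (Fin n) // Kf T ∧ T.card = i} → k) :=
    { toFun := fun a T => (a : Finset (Fin n) → k) T
      map_add' := fun a b => rfl
      map_smul' := fun c a => rfl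
      invFun := fun h => ⟨fun T => if hT : Kf T ∧ T.card = i then h ⟨T, hT⟩ else 0, by
        intro T hT
        by_contra h'
        exact hT (dif_neg h')⟩
      left_inv := by
        intro a
        apply Subtype.ext
        funext T
        by_cases hT : Kf T ∧ T.card = i
        · exact dif_pos hT
        · refine (dif_neg hT).trans ?_
          by_contra h
          exact hT (a.2 T (Ne.symm h))
      right_inv := by
        intro h
        funext T
        exact dif_pos T.2 }
  rw [e.finrank_eq, Module.finrank_fintype_fun_eq_card, Fintype.card_subtype]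

theorem mb_add (k : Type*) [Field k] {Kf : Finset (Fin n) → Prop}
    (hdown : ∀ T j, j ∉ T → Kf (insert j T) → Kf T) (i : ℕ) :
    mb k Kf i + Module.finrank k ↥(Cc k Kf (i + 1)) =
      Module.finrank k ↥(Zc k Kf i) + Module.finrank k ↥(Zc k Kf (i + 1)) := by
  have h1 := Submodule.finrank_quotient_add_finrank ((Bc k Kf i).submoduleOf (Zc k Kf i))
  have h2 := (Submodule.submoduleOfEquivOfLe (Bc_le (A := k) hdown i)).finrank_eq
  have h3 := LinearMap.finrank_range_add_finrank_ker ((cdL k).domRestrict (Cc k Kf (i + 1)))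
  rw [LinearMap.range_domRestrict, LinearMap.ker_domRestrict] at h3
  have h4 : (LinearMap.ker (cdL k)).submoduleOf (Cc k Kf (i + 1)) =
      (Zc k Kf (i + 1)).submoduleOf (Cc k Kf (i + 1)) := by
    ext a
    constructor
    · intro h
      exact ⟨a.2, h⟩
    · intro h
      exact h.2
  have h5 : Zc k Kf (i + 1) ≤ Cc k Kf (i + 1) := inf_le_left
  have h6 := (Submodule.submoduleOfEquivOfLe h5).finrank_eq
  have h7 : Module.finrank k ↥((LinearMap.ker (cdL k)).submoduleOf (Cc k Kf (i + 1))) =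
      Module.finrank k ↥(Zc k Kf (i + 1)) := by
    rw [h4, h6]
  have h8 : Module.finrank k ↥(Submodule.comap (Cc k Kf (i + 1)).subtype (LinearMap.ker (cdL k))) =
      Module.finrank k ↥(Zc k Kf (i + 1)) := h7
  rw [h8] at h3
  have h9 : Module.finrank k ↥(Submodule.map (cdL k) (Cc k Kf (i + 1))) =
      Module.finrank k ↥(Bc k Kf i) := rfl
  rw [h9] at h3
  unfold mb
  rw [h2] at h1
  omega

/-- The cycles over `k` are combinations of integral cycles. -/
def Lf (k : Type*) [Field k] (Kf : Finset (Fin n) → Prop) (i : ℕ) : Prop :=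
  Zc k Kf i ≤ spn k (Zc ℤ Kf i)

theorem cd_cst (k : Type*) [CommRing k] (a : Finset (Fin n) → ℤ) (T : Finset (Fin n)) :
    cd (cst k a) T = ((cd a T : ℤ) : k) := by
  unfold cd cst sg
  push_cast
  rfl

theorem cst_mem {k : Type*} [Field k] {Kf : Finset (Fin n) → Prop} {i : ℕ}
    {a : Finset (Fin n) → ℤ} (ha : a ∈ Zc ℤ Kf i) : cst k a ∈ Zc k Kf i := by
  rw [mem_Zc] at ha ⊢
  refine ⟨fun T hT => ha.1 T fun h => hT ?_, fun T => ?_⟩
  · unfold cst
    rw [h, Int.cast_zero]
  · rw [cd_cst, ha.2, Int.cast_zero]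

theorem spn_le (k : Type*) [Field k] (Kf : Finset (Fin n) → Prop) (i : ℕ) :
    spn k (Zc ℤ Kf i) ≤ Zc k Kf i := by
  rw [spn, Submodule.span_le]
  rintro _ ⟨a, ha, rfl⟩
  exact cst_mem ha

theorem sat_Zc (Kf : Finset (Fin n) → Prop) (i : ℕ) (N : ℤ) (h : Finset (Fin n) → ℤ)
    (hN : N ≠ 0) (hh : N • h ∈ Zc ℤ Kf i) : h ∈ Zc ℤ Kf i := by
  rw [mem_Zc] at hh ⊢
  refine ⟨fun T hT => hh.1 T ?_, fun T => ?_⟩
  · rw [Pi.smul_apply, smul_eq_mul]
    exact mul_ne_zero hN hT
  · have h1 := hh.2 T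
    have h2 : cd (N • h) T = N * cd h T := cd_smul N h T
    rw [h2] at h1
    exact (mul_eq_zero.1 h1).resolve_left hN

theorem rank_le (k : Type*) [Field k] (Kf : Finset (Fin n) → Prop) (i : ℕ) :
    Module.finrank ℤ ↥(Zc ℤ Kf i) ≤ Module.finrank k ↥(Zc k Kf i) := by
  rw [← finrank_spn k (Zc ℤ Kf i) (sat_Zc Kf i)]
  exact Submodule.finrank_mono (spn_le k Kf i)

theorem lf_iff (k : Type*) [Field k] (Kf : Finset (Fin n) → Prop) (i : ℕ) :
    Lf k Kf i ↔ Module.finrank k ↥(Zc k Kf i) = Module.finrank ℤ ↥(Zc ℤ Kf i) := by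
  rw [← finrank_spn k (Zc ℤ Kf i) (sat_Zc Kf i)]
  constructor
  · intro h
    rw [le_antisymm h (spn_le k Kf i)]
  · intro h
    exact (Submodule.eq_of_le_of_finrank_eq (spn_le k Kf i) h.symm).ge

theorem lf_rat (Kf : Finset (Fin n) → Prop) (i : ℕ) : Lf ℚ Kf i := by
  classical
  intro a ha
  set N : ℕ := ∏ T : Finset (Fin n), (a T).den with hN
  have hN0 : N ≠ 0 := Finset.prod_ne_zero_iff.2 fun T _ => (a T).den_ne_zero
  have h1 : ∀ T, ∃ z : ℤ, (z : ℚ) = (N : ℚ) * a T := by
    intro T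
    obtain ⟨m, hm⟩ : (a T).den ∣ N := Finset.dvd_prod_of_mem _ (Finset.mem_univ T)
    refine ⟨(a T).num * m, ?_⟩
    rw [hm]
    push_cast
    have h2 : ((a T).den : ℚ) * a T = (a T).num := by
      rw [mul_comm]
      exact Rat.mul_den_eq_num (a T)
    rw [mul_right_comm, h2]
  choose z hz using h1
  have h2 : z ∈ Zc ℤ Kf i := by
    rw [mem_Zc] at ha ⊢
    refine ⟨fun T hT => ha.1 T fun h => hT ?_, fun T => ?_⟩
    · have := hz T
      rw [h, mul_zero] at this
      exact_mod_cast this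
    · have h3 := cd_cst ℚ z T
      have h4 : cst ℚ z = fun T => (N : ℚ) * a T := funext hz
      rw [h4, cd_smul, ha.2, mul_zero] at h3
      exact_mod_cast h3.symm
  have h3 : a = (N : ℚ)⁻¹ • cst ℚ z := by
    funext T
    rw [Pi.smul_apply, smul_eq_mul, cst, hz, inv_mul_cancel_left₀ (by exact_mod_cast hN0)]
  rw [h3]
  exact Submodule.smul_mem _ _ (Submodule.subset_span ⟨z, h2, rfl⟩)

theorem mb_rat_le (k : Type*) [Field k] {Kf : Finset (Fin n) → Prop}
    (hdown : ∀ T j, j ∉ T → Kf (insert j T) → Kf T) (i : ℕ) : mb ℚ Kf i ≤ mb k Kf i := by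
  have h1 := mb_add k hdown i
  have h2 := mb_add ℚ hdown i
  have h3 := (lf_iff ℚ Kf i).1 (lf_rat Kf i)
  have h4 := (lf_iff ℚ Kf (i + 1)).1 (lf_rat Kf (i + 1))
  have h5 := rank_le k Kf i
  have h6 := rank_le k Kf (i + 1)
  rw [finrank_Cc] at h1 h2
  omega

theorem lf_of_mb (k : Type*) [Field k] {Kf : Finset (Fin n) → Prop}
    (hdown : ∀ T j, j ∉ T → Kf (insert j T) → Kf T) (i : ℕ) (h : mb k Kf i = mb ℚ Kf i) :
    Lf k Kf i := by
  have h1 := mb_add k hdown i
  have h2 := mb_add ℚ hdown i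
  have h3 := (lf_iff ℚ Kf i).1 (lf_rat Kf i)
  have h4 := (lf_iff ℚ Kf (i + 1)).1 (lf_rat Kf (i + 1))
  have h5 := rank_le k Kf i
  have h6 := rank_le k Kf (i + 1)
  rw [finrank_Cc] at h1 h2
  rw [lf_iff]
  omega

theorem mb_of_lf (k : Type*) [Field k] {Kf : Finset (Fin n) → Prop}
    (hdown : ∀ T j, j ∉ T → Kf (insert j T) → Kf T) (i : ℕ) (h : Lf k Kf i)
    (h' : Lf k Kf (i + 1)) : mb k Kf i = mb ℚ Kf i := by
  have h1 := mb_add k hdown i
  have h2 := mb_add ℚ hdown i
  have h3 := (lf_iff ℚ Kf i).1 (lf_rat Kf i)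
  have h4 := (lf_iff ℚ Kf (i + 1)).1 (lf_rat Kf (i + 1))
  rw [lf_iff] at h h'
  rw [finrank_Cc] at h1 h2
  omega

end complex

end Pool.Agent.X317.Cone
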