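import Mathlib
import Pool.Agent.X317.Cone.Lin

/-!
# The graded Betti numbers of a monomial ideal
-/

set_option autoImplicit false
set_option linter.all false

open Finset Pool.Agent.H677R3.EdgeReg MvPolynomial

namespace Pool.Agent.X317.Cone

variable {n : ℕ} {k : Type*} [Field k]

/-- The Koszul differential of `x_1, …, x_n` as a linear map: a chain is a function `f`, standing for
`∑ f(T) e_T`, and `(d f)(T) = ∑_{j ∉ T} (-1) ^ #{l ∈ T | l < j} x_j f(T ∪ {j})`. -/
noncomputable def kosz (k : Type*) [Field k] (n : ℕ) :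
    (Finset (Fin n) → MvPolynomial (Fin n) k) →ₗ[k] (Finset (Fin n) → MvPolynomial (Fin n) k) where
  toFun f := koszulD f
  map_add' f g := by
    funext T
    rw [Pi.add_apply]
    unfold koszulD
    rw [← Finset.sum_add_distrib]
    refine Finset.sum_congr rfl fun j _ => ?_
    rw [Pi.add_apply]
    ring
  map_smul' c f := by
    funext T
    rw [Pi.smul_apply]
    unfold koszulD
    rw [Finset.smul_sum]
    refine Finset.sum_congr rfl fun j _ => ?_
    rw [Pi.smul_apply, RingHom.id_apply, smul_eq_C_mul, smul_eq_C_mul]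
    ring

/-- The Koszul chains of degree `i` with coefficients in the ideal `J` and of internal degree `j`:
`f(T) ∈ J` is homogeneous of degree `j - |T|`, and `0` unless `|T| = i`. -/
def GC (J : Ideal (MvPolynomial (Fin n) k)) (i j : ℕ) :
    Submodule k (Finset (Fin n) → MvPolynomial (Fin n) k) where
  carrier := {f | ∀ T, f T ∈ J ∧ (T.card ≠ i → f T = 0) ∧
    ∀ c ∈ (f T).support, c.degree + T.card = j}
  add_mem' := by
    classical
    intro f g hf hg T
    refine ⟨J.add_mem (hf T).1 (hg T).1, fun h => ?_, fun c hc => ?_⟩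
    · rw [Pi.add_apply, (hf T).2.1 h, (hg T).2.1 h, add_zero]
    · rcases Finset.mem_union.1 (MvPolynomial.support_add hc) with h | h
      · exact (hf T).2.2 c h
      · exact (hg T).2.2 c h
  zero_mem' := fun T => ⟨J.zero_mem, fun _ => rfl, fun c hc => by simp at hc⟩
  smul_mem' := by
    intro r f hf T
    refine ⟨?_, fun h => ?_, fun c hc => ?_⟩
    · rw [Pi.smul_apply, smul_eq_C_mul]
      exact J.mul_mem_left _ (hf T).1
    · rw [Pi.smul_apply, (hf T).2.1 h, smul_zero]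
    · refine (hf T).2.2 c ?_
      rw [MvPolynomial.mem_support_iff] at hc ⊢
      intro h
      apply hc
      rw [Pi.smul_apply, coeff_smul, h, smul_zero]

/-- the cycles -/
noncomputable def GZ (J : Ideal (MvPolynomial (Fin n) k)) (i j : ℕ) :
    Submodule k (Finset (Fin n) → MvPolynomial (Fin n) k) :=
  GC J i j ⊓ LinearMap.ker (kosz k n)

/-- the boundaries -/
noncomputable def GB (J : Ideal (MvPolynomial (Fin n) k)) (i j : ℕ) :
    Submodule k (Finset (Fin n) → MvPolynomial (Fin n) k) :=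
  (GC J (i + 1) j).map (kosz k n)

/-- The graded Betti number `β_{i,j}(J) = dim_k Tor_i(J, k)_j`: the dimension of the part of degree `j`
of the Koszul homology of degree `i` with coefficients in `J`. -/
noncomputable def gbetti (J : Ideal (MvPolynomial (Fin n) k)) (i j : ℕ) : ℕ :=
  Module.finrank k (↥(GZ J i j) ⧸ (GB J i j).submoduleOf (GZ J i j))

theorem mem_GC {J : Ideal (MvPolynomial (Fin n) k)} {i j : ℕ}
    {f : Finset (Fin n) → MvPolynomial (Fin n) k} : f ∈ GC J i j ↔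
      ∀ T, f T ∈ J ∧ (T.card ≠ i → f T = 0) ∧ ∀ c ∈ (f T).support, c.degree + T.card = j :=
  Iff.rfl

/-- the multidegrees of degree `j` -/
noncomputable def Dg (n j : ℕ) : Finset (Fin n →₀ ℕ) := Finset.finsuppAntidiag univ j

theorem mem_Dg {j : ℕ} {b : Fin n →₀ ℕ} : b ∈ Dg n j ↔ ∑ v, b v = j := by
  unfold Dg
  rw [Finset.mem_finsuppAntidiag]
  simp

/-- the assembly of the multigraded parts -/
noncomputable def asm (D : Finset (Fin n →₀ ℕ)) (h : (Fin n →₀ ℕ) → Finset (Fin n) → k)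
    (T : Finset (Fin n)) : MvPolynomial (Fin n) k :=
  ∑ b ∈ D, MvPolynomial.monomial (b - ind T) (h b T)

theorem comp_asm (D : Finset (Fin n →₀ ℕ)) (h : (Fin n →₀ ℕ) → Finset (Fin n) → k)
    (hh : ∀ b T, h b T ≠ 0 → ind T ≤ b) (b : Fin n →₀ ℕ) (T : Finset (Fin n)) :
    Pool.Agent.H677R3.EdgeReg.comp (asm D h) b T = open Classical in if b ∈ D then h b T else 0 := by
  classical
  have key : ∀ b' ∈ D, ind T ≤ b → (MvPolynomial.monomial (b' - ind T) (h b' T)).coeff (b - ind T) =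
      if b' = b then h b T else 0 := by
    intro b' _ hle
    rw [MvPolynomial.coeff_monomial]
    by_cases h0 : h b' T = 0
    · by_cases h1 : b' = b
      · subst h1; simp [h0]
      · rw [h0]; simp [h1]
    · have hle' := hh b' T h0
      by_cases h1 : b' = b
      · subst h1; simp
      · rw [if_neg h1, if_neg]
        intro h2
        apply h1
        rw [← tsub_add_cancel_of_le hle', ← tsub_add_cancel_of_le hle, h2]
  unfold Pool.Agent.H677R3.EdgeReg.comp
  by_cases hle : ind T ≤ b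
  · rw [if_pos hle]
    unfold asm
    rw [MvPolynomial.coeff_sum, Finset.sum_congr rfl (fun b' hb' => key b' hb' hle)]
    rw [Finset.sum_ite_eq' D b]
  · rw [if_neg hle]
    split_ifs with hb
    · by_contra h'
      exact hle (hh b T (fun h'' => h' h''.symm))
    · rfl

theorem coeff_eq_comp (f : Finset (Fin n) → MvPolynomial (Fin n) k) (c : Fin n →₀ ℕ)
    (T : Finset (Fin n)) : (f T).coeff c = Pool.Agent.H677R3.EdgeReg.comp f (c + ind T) T := (comp_add_ind f c T).symm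

theorem degree_add (c : Fin n →₀ ℕ) (T : Finset (Fin n)) :
    ∑ v, (c + ind T) v = c.degree + T.card := by
  have h1 : ∑ v, (c + ind T) v = ∑ v, c v + ∑ v, ind T v := by
    rw [← Finset.sum_add_distrib]
    rfl
  rw [h1, sum_ind, Finsupp.degree_eq_sum]

theorem comp_mem_Cc {J : Ideal (MvPolynomial (Fin n) k)} {P : (Fin n → ℕ) → Prop}
    (hJ : ∀ p, p ∈ J ↔ ∀ c ∈ p.support, P ⇑c) {i j : ℕ}
    {f : Finset (Fin n) → MvPolynomial (Fin n) k} (hf : f ∈ GC J i j) (b : Fin n →₀ ℕ) :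
    Pool.Agent.H677R3.EdgeReg.comp f b ∈ Cc k (KK P b) i := by
  rw [mem_Cc]
  intro T h
  unfold Pool.Agent.H677R3.EdgeReg.comp at h
  split_ifs at h with hle
  · refine ⟨⟨hle, (hJ _).1 (hf T).1 _ (MvPolynomial.mem_support_iff.2 h)⟩, ?_⟩
    by_contra hne
    rw [(hf T).2.1 hne, coeff_zero] at h
    exact h rfl
  · exact absurd rfl h

theorem comp_eq_zero {J : Ideal (MvPolynomial (Fin n) k)} {i j : ℕ}
    {f : Finset (Fin n) → MvPolynomial (Fin n) k} (hf : f ∈ GC J i j) {b : Fin n →₀ ℕ}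
    (hb : b ∉ Dg n j) (T : Finset (Fin n)) : Pool.Agent.H677R3.EdgeReg.comp f b T = 0 := by
  by_contra h
  unfold Pool.Agent.H677R3.EdgeReg.comp at h
  split_ifs at h with hle
  · have h1 := (hf T).2.2 _ (MvPolynomial.mem_support_iff.2 h)
    rw [← degree_add, tsub_add_cancel_of_le hle] at h1
    exact hb (mem_Dg.2 h1)
  · exact h rfl

theorem asm_mem_GC {J : Ideal (MvPolynomial (Fin n) k)} {P : (Fin n → ℕ) → Prop}
    (hJ : ∀ p, p ∈ J ↔ ∀ c ∈ p.support, P ⇑c) {i j : ℕ}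
    {h : (Fin n →₀ ℕ) → Finset (Fin n) → k} (hh : ∀ b, h b ∈ Cc k (KK P b) i) :
    asm (Dg n j) h ∈ GC J i j := by
  classical
  have key : ∀ T c, (asm (Dg n j) h T).coeff c ≠ 0 → c + ind T ∈ Dg n j ∧ h (c + ind T) T ≠ 0 := by
    intro T c hc
    rw [coeff_eq_comp, comp_asm _ _ (fun b T hT => (hh b T hT).1.1)] at hc
    split_ifs at hc with hb
    · exact ⟨hb, hc⟩
    · exact absurd rfl hc
  intro T
  refine ⟨?_, fun hT => ?_, fun c hc => ?_⟩
  · rw [hJ]
    intro c hc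
    obtain ⟨-, h2⟩ := key T c (MvPolynomial.mem_support_iff.1 hc)
    have := (hh _ T h2).1.2
    rwa [add_tsub_cancel_right] at this
  · ext c
    rw [coeff_zero]
    by_contra hc
    obtain ⟨-, h2⟩ := key T c hc
    exact hT (hh _ T h2).2
  · obtain ⟨h1, -⟩ := key T c (MvPolynomial.mem_support_iff.1 hc)
    rw [← degree_add]
    exact mem_Dg.1 h1

theorem comp_add (f g : Finset (Fin n) → MvPolynomial (Fin n) k) (b : Fin n →₀ ℕ) :
    Pool.Agent.H677R3.EdgeReg.comp (f + g) b = Pool.Agent.H677R3.EdgeReg.comp f b + Pool.Agent.H677R3.EdgeReg.comp g b := by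
  funext T
  rw [Pi.add_apply]
  unfold Pool.Agent.H677R3.EdgeReg.comp
  split_ifs
  · rw [Pi.add_apply, coeff_add]
  · rw [add_zero]

theorem comp_smul (r : k) (f : Finset (Fin n) → MvPolynomial (Fin n) k) (b : Fin n →₀ ℕ) :
    Pool.Agent.H677R3.EdgeReg.comp (r • f) b = r • Pool.Agent.H677R3.EdgeReg.comp f b := by
  funext T
  rw [Pi.smul_apply]
  unfold Pool.Agent.H677R3.EdgeReg.comp
  split_ifs
  · rw [Pi.smul_apply, coeff_smul]
  · rw [smul_zero]

theorem comp_mem_Zc {J : Ideal (MvPolynomial (Fin n) k)} {P : (Fin n → ℕ) → Prop}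
    (hJ : ∀ p, p ∈ J ↔ ∀ c ∈ p.support, P ⇑c) {i j : ℕ}
    {f : Finset (Fin n) → MvPolynomial (Fin n) k} (hf : f ∈ GZ J i j) (b : Fin n →₀ ℕ) :
    Pool.Agent.H677R3.EdgeReg.comp f b ∈ Zc k (KK P b) i := by
  rw [mem_Zc]
  refine ⟨comp_mem_Cc hJ hf.1 b, fun T => ?_⟩
  rw [← comp_koszulD]
  have h1 : koszulD f = 0 := hf.2
  rw [h1]
  unfold Pool.Agent.H677R3.EdgeReg.comp
  rw [Pi.zero_apply, coeff_zero]
  split_ifs <;> rfl

/-- the multigraded parts of a homology class -/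
noncomputable def parts {J : Ideal (MvPolynomial (Fin n) k)} {P : (Fin n → ℕ) → Prop}
    (hJ : ∀ p, p ∈ J ↔ ∀ c ∈ p.support, P ⇑c) (i j : ℕ) :
    ↥(GZ J i j) →ₗ[k] ((b : ↥(Dg n j)) →
      (↥(Zc k (KK P (b : Fin n →₀ ℕ)) i) ⧸
        (Bc k (KK P (b : Fin n →₀ ℕ)) i).submoduleOf (Zc k (KK P (b : Fin n →₀ ℕ)) i))) where
  toFun f b := Submodule.Quotient.mk
    ⟨Pool.Agent.H677R3.EdgeReg.comp (f : Finset (Fin n) → MvPolynomial (Fin n) k) (b : Fin n →₀ ℕ),
      comp_mem_Zc hJ f.2 b⟩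
  map_add' f g := by
    funext b
    rw [Pi.add_apply, ← Submodule.Quotient.mk_add]
    congr 1
    apply Subtype.ext
    exact comp_add _ _ _
  map_smul' c f := by
    funext b
    rw [Pi.smul_apply, RingHom.id_apply, ← Submodule.Quotient.mk_smul]
    congr 1
    apply Subtype.ext
    exact comp_smul _ _ _

theorem koszulD_asm (D : Finset (Fin n →₀ ℕ)) (h : (Fin n →₀ ℕ) → Finset (Fin n) → k)
    (hh : ∀ b T, h b T ≠ 0 → ind T ≤ b) (b : Fin n →₀ ℕ) (T : Finset (Fin n)) :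
    Pool.Agent.H677R3.EdgeReg.comp (koszulD (asm D h)) b T = open Classical in if b ∈ D then cd (h b) T else 0 := by
  classical
  rw [comp_koszulD]
  have : Pool.Agent.H677R3.EdgeReg.comp (asm D h) b = fun T => if b ∈ D then h b T else 0 := by
    funext T
    exact comp_asm D h hh b T
  rw [this]
  by_cases hb : b ∈ D
  · simp only [if_pos hb]
  · simp only [if_neg hb]
    exact cd_zero T

theorem ext_comp {f g : Finset (Fin n) → MvPolynomial (Fin n) k}
    (h : ∀ b T, Pool.Agent.H677R3.EdgeReg.comp f b T = Pool.Agent.H677R3.EdgeReg.comp g b T) : f = g := by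
  funext T
  ext c
  rw [coeff_eq_comp, coeff_eq_comp, h]

theorem parts_surj {J : Ideal (MvPolynomial (Fin n) k)} {P : (Fin n → ℕ) → Prop}
    (hJ : ∀ p, p ∈ J ↔ ∀ c ∈ p.support, P ⇑c) (i j : ℕ) :
    Function.Surjective (parts hJ i j) := by
  classical
  intro y
  choose a ha using fun b => Submodule.Quotient.mk_surjective _ (y b)
  let h : (Fin n →₀ ℕ) → Finset (Fin n) → k := fun b =>
    if hb : b ∈ Dg n j then (a ⟨b, hb⟩ : Finset (Fin n) → k) else 0
  have hh : ∀ b, h b ∈ Zc k (KK P b) i := by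
    intro b
    by_cases hb : b ∈ Dg n j
    · simp only [h, dif_pos hb]
      exact (a ⟨b, hb⟩).2
    · simp only [h, dif_neg hb]
      exact Submodule.zero_mem _
  have hle : ∀ b T, h b T ≠ 0 → ind T ≤ b := fun b T hT => ((hh b).1 T hT).1.1
  have hf : asm (Dg n j) h ∈ GZ J i j := by
    refine ⟨asm_mem_GC hJ fun b => (hh b).1, ?_⟩
    rw [SetLike.mem_coe, LinearMap.mem_ker]
    change koszulD (asm (Dg n j) h) = 0
    refine ext_comp fun b T => ?_
    rw [koszulD_asm _ _ hle]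
    have h0 : Pool.Agent.H677R3.EdgeReg.comp (0 : Finset (Fin n) → MvPolynomial (Fin n) k) b T = 0 := by
      unfold Pool.Agent.H677R3.EdgeReg.comp
      rw [Pi.zero_apply, coeff_zero]
      split_ifs <;> rfl
    rw [h0]
    split_ifs
    · exact (mem_Zc.1 (hh b)).2 T
    · rfl
  refine ⟨⟨asm (Dg n j) h, hf⟩, ?_⟩
  funext b
  rw [← ha b]
  change Submodule.Quotient.mk _ = _
  congr 1
  apply Subtype.ext
  change Pool.Agent.H677R3.EdgeReg.comp (asm (Dg n j) h) (b : Fin n →₀ ℕ) = _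
  funext T
  rw [comp_asm _ _ hle, if_pos b.2]
  simp only [h, dif_pos b.2]

theorem parts_ker {J : Ideal (MvPolynomial (Fin n) k)} {P : (Fin n → ℕ) → Prop}
    (hJ : ∀ p, p ∈ J ↔ ∀ c ∈ p.support, P ⇑c) (i j : ℕ) :
    LinearMap.ker (parts hJ i j) = (GB J i j).submoduleOf (GZ J i j) := by
  classical
  ext ⟨f, hf⟩
  rw [LinearMap.mem_ker]
  have hiff : parts hJ i j ⟨f, hf⟩ = 0 ↔
      ∀ b : ↥(Dg n j), Pool.Agent.H677R3.EdgeReg.comp f (b : Fin n →₀ ℕ) ∈ Bc k (KK P (b : Fin n →₀ ℕ)) i := by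
    rw [funext_iff]
    refine forall_congr' fun b => ?_
    exact Submodule.Quotient.mk_eq_zero _
  rw [hiff]
  change _ ↔ f ∈ GB J i j
  constructor
  · intro hb
    have hex : ∀ b : Fin n →₀ ℕ, ∃ g : Finset (Fin n) → k, g ∈ Cc k (KK P b) (i + 1) ∧
        (b ∈ Dg n j → ∀ T, cd g T = Pool.Agent.H677R3.EdgeReg.comp f b T) := by
      intro b
      by_cases hbD : b ∈ Dg n j
      · obtain ⟨g, hg1, hg2⟩ := mem_Bc.1 (hb ⟨b, hbD⟩)
        exact ⟨g, hg1, fun _ => hg2⟩
      · exact ⟨0, Submodule.zero_mem _, fun h => absurd h hbD⟩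
    choose g hg1 hg2 using hex
    refine ⟨asm (Dg n j) g, asm_mem_GC hJ hg1, ?_⟩
    change koszulD (asm (Dg n j) g) = f
    refine ext_comp fun b T => ?_
    rw [koszulD_asm _ _ (fun b T hT => (hg1 b T hT).1.1)]
    split_ifs with hbD
    · exact hg2 b hbD T
    · exact (comp_eq_zero hf.1 hbD T).symm
  · rintro ⟨g, hg, hgf⟩ b
    have hgf' : koszulD g = f := hgf
    rw [mem_Bc]
    refine ⟨Pool.Agent.H677R3.EdgeReg.comp g (b : Fin n →₀ ℕ), comp_mem_Cc hJ hg b, fun T => ?_⟩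
    rw [← comp_koszulD, hgf']

theorem finrank_of_surj {V ι : Type*} [Fintype ι] [AddCommGroup V] [Module k V] (W : ι → Type*)
    [∀ b, AddCommGroup (W b)] [∀ b, Module k (W b)] [∀ b, Module.Finite k (W b)]
    (f : V →ₗ[k] ((b : ι) → W b)) (hf : Function.Surjective f) (N : Submodule k V)
    (hN : LinearMap.ker f = N) :
    Module.finrank k (V ⧸ N) = ∑ b, Module.finrank k (W b) := by
  subst hN
  rw [(LinearMap.quotKerEquivOfSurjective f hf).finrank_eq, Module.finrank_pi_fintype]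

/-- **The graded Betti numbers are sums of the multigraded ones.** -/
theorem gbetti_eq {J : Ideal (MvPolynomial (Fin n) k)} {P : (Fin n → ℕ) → Prop}
    (hJ : ∀ p, p ∈ J ↔ ∀ c ∈ p.support, P ⇑c) (i j : ℕ) :
    gbetti J i j = ∑ b ∈ Dg n j, mb k (KK P b) i := by
  classical
  have h1 := finrank_of_surj (fun b : ↥(Dg n j) =>
    (↥(Zc k (KK P (b : Fin n →₀ ℕ)) i) ⧸
        (Bc k (KK P (b : Fin n →₀ ℕ)) i).submoduleOf (Zc k (KK P (b : Fin n →₀ ℕ)) i)))
    (parts hJ i j) (parts_surj hJ i j) _ (parts_ker hJ i j)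
  exact h1.trans (Finset.sum_coe_sort (Dg n j) (fun b => mb k (KK P b) i))

theorem KK_down {P : (Fin n → ℕ) → Prop} (hP : ∀ c c' : Fin n → ℕ, P c → c ≤ c' → P c')
    (b : Fin n →₀ ℕ) (T : Finset (Fin n)) (j : Fin n) (hj : j ∉ T) (h : KK P b (insert j T)) :
    KK P b T := by
  have hle : ∀ v, ind T v ≤ ind (insert j T) v := by
    intro v
    rw [ind_apply, ind_apply]
    split_ifs with h1 h2
    · exact le_rfl
    · exact absurd (Finset.mem_insert_of_mem h1) h2
    · omega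
    · exact le_rfl
  refine ⟨fun v => (hle v).trans (h.1 v), hP _ _ h.2 fun v => ?_⟩
  simp only [Finsupp.coe_tsub, Pi.sub_apply]
  have := hle v
  omega

/-- **Equality of the graded Betti numbers with the rational ones means that all the cycles are
combinations of integral cycles.** -/
theorem lf_of_gbetti {P : (Fin n → ℕ) → Prop} (hP : ∀ c c' : Fin n → ℕ, P c → c ≤ c' → P c')
    {J : Ideal (MvPolynomial (Fin n) k)} (hJ : ∀ p, p ∈ J ↔ ∀ c ∈ p.support, P ⇑c)
    {J₀ : Ideal (MvPolynomial (Fin n) ℚ)} (hJ₀ : ∀ p, p ∈ J₀ ↔ ∀ c ∈ p.support, P ⇑c)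
    (h : ∀ i j, gbetti J i j = gbetti J₀ i j) (b : Fin n →₀ ℕ) (i : ℕ) : Lf k (KK P b) i := by
  refine lf_of_mb k (KK_down hP b) i ?_
  have h1 := h i (∑ v, b v)
  rw [gbetti_eq hJ, gbetti_eq hJ₀] at h1
  have h2 := (Finset.sum_eq_sum_iff_of_le (s := Dg n (∑ v, b v))
    (fun b _ => mb_rat_le k (KK_down hP b) i)).1 h1.symm
  exact (h2 b (mem_Dg.2 rfl)).symm

theorem gbetti_of_lf {P : (Fin n → ℕ) → Prop} (hP : ∀ c c' : Fin n → ℕ, P c → c ≤ c' → P c')
    {J : Ideal (MvPolynomial (Fin n) k)} (hJ : ∀ p, p ∈ J ↔ ∀ c ∈ p.support, P ⇑c)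
    {J₀ : Ideal (MvPolynomial (Fin n) ℚ)} (hJ₀ : ∀ p, p ∈ J₀ ↔ ∀ c ∈ p.support, P ⇑c)
    (h : ∀ b i, Lf k (KK P b) i) (i j : ℕ) : gbetti J i j = gbetti J₀ i j := by
  rw [gbetti_eq hJ, gbetti_eq hJ₀]
  exact Finset.sum_congr rfl fun b _ => mb_of_lf k (KK_down hP b) i (h b i) (h b (i + 1))

end Pool.Agent.X317.Cone
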