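import Mathlib
import Pool.Agent.X317.Cone.Graded

/-!
# From the square of the edge ideal of the cone to the edge ideal
-/

set_option autoImplicit false
set_option linter.all false

open Finset Pool.Agent.H677R3.EdgeReg

namespace Pool.Agent.X317.Cone

variable {n : ℕ}

/-- the part without the last variable -/
def dn (T : Finset (Fin (n + 1))) : Finset (Fin n) := univ.filter fun j => Fin.castSucc j ∈ T

/-- the same variables -/
def up (T : Finset (Fin n)) : Finset (Fin (n + 1)) := T.map Fin.castSuccEmb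

theorem mem_dn {T : Finset (Fin (n + 1))} {j : Fin n} : j ∈ dn T ↔ Fin.castSucc j ∈ T := by
  unfold dn
  rw [Finset.mem_filter]
  exact ⟨fun h => h.2, fun h => ⟨Finset.mem_univ _, h⟩⟩

theorem castSucc_mem_up {T : Finset (Fin n)} {j : Fin n} : Fin.castSucc j ∈ up T ↔ j ∈ T := by
  unfold up
  rw [Finset.mem_map]
  constructor
  · rintro ⟨i, hi, h⟩
    have : i = j := Fin.castSucc_injective n h
    rwa [← this]
  · intro h
    exact ⟨j, h, rfl⟩

theorem last_notMem_up (T : Finset (Fin n)) : Fin.last n ∉ up T := by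
  unfold up
  rw [Finset.mem_map]
  rintro ⟨i, _, h⟩
  exact Fin.castSucc_ne_last i h

theorem dn_up (T : Finset (Fin n)) : dn (up T) = T := by
  ext j
  rw [mem_dn, castSucc_mem_up]

theorem dn_insert_last (T : Finset (Fin (n + 1))) : dn (insert (Fin.last n) T) = dn T := by
  ext j
  rw [mem_dn, mem_dn, Finset.mem_insert]
  exact ⟨fun h => h.resolve_left (Fin.castSucc_ne_last j), Or.inr⟩

theorem dn_insert_castSucc (T : Finset (Fin (n + 1))) (j : Fin n) :
    dn (insert (Fin.castSucc j) T) = insert j (dn T) := by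
  ext i
  rw [mem_dn, Finset.mem_insert, Finset.mem_insert, mem_dn]
  exact or_congr_left ⟨fun h => Fin.castSucc_injective n h, fun h => by rw [h]⟩

theorem up_insert (T : Finset (Fin n)) (j : Fin n) :
    up (insert j T) = insert (Fin.castSucc j) (up T) := by
  unfold up
  rw [Finset.map_insert]
  rfl

theorem eq_of_last_notMem {T : Finset (Fin (n + 1))} (h : Fin.last n ∉ T) : up (dn T) = T := by
  ext x
  induction x using Fin.lastCases with
  | last => exact ⟨fun h' => absurd h' (last_notMem_up _), fun h' => absurd h' h⟩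
  | cast j => rw [castSucc_mem_up, mem_dn]

theorem eq_of_last_mem {T : Finset (Fin (n + 1))} (h : Fin.last n ∈ T) :
    insert (Fin.last n) (up (dn T)) = T := by
  ext x
  induction x using Fin.lastCases with
  | last => exact ⟨fun _ => h, fun _ => Finset.mem_insert_self _ _⟩
  | cast j =>
    rw [Finset.mem_insert, castSucc_mem_up, mem_dn]
    exact ⟨fun h => h.resolve_left (Fin.castSucc_ne_last j), Or.inr⟩

theorem card_up (T : Finset (Fin n)) : (up T).card = T.card := Finset.card_map _

theorem card_of_last_notMem {T : Finset (Fin (n + 1))} (h : Fin.last n ∉ T) :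
    (dn T).card = T.card := by
  rw [← card_up, eq_of_last_notMem h]

theorem card_of_last_mem {T : Finset (Fin (n + 1))} (h : Fin.last n ∈ T) :
    (dn T).card + 1 = T.card := by
  conv_rhs => rw [← eq_of_last_mem h]
  rw [Finset.card_insert_of_notMem (last_notMem_up _), card_up]

theorem sg_castSucc {A : Type*} [CommRing A] (j : Fin n) (T : Finset (Fin (n + 1))) :
    sg A (Fin.castSucc j) T = sg A j (dn T) := by
  have h1 : T.filter (· < Fin.castSucc j) = up ((dn T).filter (· < j)) := by
    ext x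
    rw [Finset.mem_filter]
    induction x using Fin.lastCases with
    | last =>
      exact ⟨fun h => absurd h.2 (not_lt.2 (Fin.le_last _)), fun h => absurd h (last_notMem_up _)⟩
    | cast i =>
      rw [castSucc_mem_up, Finset.mem_filter, mem_dn, Fin.castSucc_lt_castSucc_iff]
  unfold sg
  rw [h1, card_up]

theorem sg_last {A : Type*} [CommRing A] {T : Finset (Fin (n + 1))} (h : Fin.last n ∉ T) :
    sg A (Fin.last n) T = (-1) ^ T.card := by
  unfold sg
  congr 2
  rw [Finset.filter_eq_self]
  intro x hx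
  exact lt_of_le_of_ne (Fin.le_last x) (fun h' => h (h' ▸ hx))

theorem sum_compl_last_notMem {A : Type*} [AddCommMonoid A] {T : Finset (Fin (n + 1))}
    (h : Fin.last n ∉ T) (F : Fin (n + 1) → A) :
    ∑ x ∈ Tᶜ, F x = ∑ j ∈ (dn T)ᶜ, F (Fin.castSucc j) + F (Fin.last n) := by
  have h1 : Tᶜ = insert (Fin.last n) (up (dn T)ᶜ) := by
    ext x
    rw [Finset.mem_compl, Finset.mem_insert]
    induction x using Fin.lastCases with
    | last => exact ⟨fun _ => Or.inl rfl, fun _ => h⟩
    | cast j =>
      rw [castSucc_mem_up, Finset.mem_compl, mem_dn]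
      exact ⟨Or.inr, fun h => h.resolve_left (Fin.castSucc_ne_last j)⟩
  rw [h1, Finset.sum_insert (last_notMem_up _), add_comm]
  congr 1
  unfold up
  rw [Finset.sum_map]
  rfl

theorem sum_compl_last_mem {A : Type*} [AddCommMonoid A] {T : Finset (Fin (n + 1))}
    (h : Fin.last n ∈ T) (F : Fin (n + 1) → A) :
    ∑ x ∈ Tᶜ, F x = ∑ j ∈ (dn T)ᶜ, F (Fin.castSucc j) := by
  have h1 : Tᶜ = up (dn T)ᶜ := by
    ext x
    rw [Finset.mem_compl]
    induction x using Fin.lastCases with
    | last => exact ⟨fun h' => absurd h h', fun h' => absurd h' (last_notMem_up _)⟩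
    | cast j => rw [castSucc_mem_up, Finset.mem_compl, mem_dn]
  rw [h1]
  unfold up
  rw [Finset.sum_map]
  rfl

/-- the exponent with the last coordinate `t` -/
noncomputable def sn (b : Fin n →₀ ℕ) (t : ℕ) : Fin (n + 1) →₀ ℕ :=
  Finsupp.equivFunOnFinite.symm (Fin.snoc (α := fun _ => ℕ) (⇑b) t)

theorem sn_castSucc (b : Fin n →₀ ℕ) (t : ℕ) (j : Fin n) : sn b t (Fin.castSucc j) = b j := by
  unfold sn
  rw [Finsupp.equivFunOnFinite_symm_apply_apply, Fin.snoc_castSucc]

theorem sn_last (b : Fin n →₀ ℕ) (t : ℕ) : sn b t (Fin.last n) = t := by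
  unfold sn
  rw [Finsupp.equivFunOnFinite_symm_apply_apply, Fin.snoc_last]

theorem ind_castSucc (T : Finset (Fin (n + 1))) (j : Fin n) :
    ind T (Fin.castSucc j) = ind (dn T) j := by
  rw [ind_apply, ind_apply]
  simp only [mem_dn]

theorem sn_sub (b : Fin n →₀ ℕ) (t : ℕ) (T : Finset (Fin (n + 1))) :
    sn b t - ind T = sn (b - ind (dn T)) (t - ind T (Fin.last n)) := by
  ext x
  rw [Finsupp.coe_tsub, Pi.sub_apply]
  induction x using Fin.lastCases with
  | last => rw [sn_last, sn_last]
  | cast j => rw [sn_castSucc, sn_castSucc, ind_castSucc, Finsupp.coe_tsub, Pi.sub_apply]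

theorem ind_le_sn {b : Fin n →₀ ℕ} {t : ℕ} (ht : 1 ≤ t) (T : Finset (Fin (n + 1))) :
    ind T ≤ sn b t ↔ ind (dn T) ≤ b := by
  constructor
  · intro h j
    have := h (Fin.castSucc j)
    rwa [ind_castSucc, sn_castSucc] at this
  · intro h x
    induction x using Fin.lastCases with
    | last =>
      rw [sn_last, ind_apply]
      split_ifs <;> omega
    | cast j =>
      rw [ind_castSucc, sn_castSucc]
      exact h j

theorem sum_sub_ind {b : Fin n →₀ ℕ} {T : Finset (Fin n)} (h : ind T ≤ b) :
    ∑ v, (b - ind T) v + T.card = ∑ v, b v := by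
  rw [← sum_ind T, ← Finset.sum_add_distrib]
  refine Finset.sum_congr rfl fun v _ => ?_
  have := h v
  rw [Finsupp.coe_tsub, Pi.sub_apply]
  omega

section transfer

variable {k : Type*} [Field k] {P1 : (Fin n → ℕ) → Prop} {P2 : (Fin (n + 1) → ℕ) → Prop}
  (F1 : ∀ c : Fin n →₀ ℕ, 2 ≤ ∑ v, c v → P2 ⇑(sn c 2))
  (F2 : ∀ c : Fin n →₀ ℕ, P1 ⇑c → 3 ≤ ∑ v, c v → P2 ⇑(sn c 1))
  (F3 : ∀ c : Fin n →₀ ℕ, P2 ⇑(sn c 1) → P1 ⇑c)

/-- the part of a chain with the last variable -/
def RR (A : Type*) [CommRing A] (n : ℕ) :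
    (Finset (Fin (n + 1)) → A) →ₗ[A] (Finset (Fin n) → A) where
  toFun f T := - (-1) ^ T.card * f (insert (Fin.last n) (up T))
  map_add' f g := by
    funext T
    simp only [Pi.add_apply]
    ring
  map_smul' c f := by
    funext T
    simp only [Pi.smul_apply, smul_eq_mul, RingHom.id_apply]
    ring

theorem RR_apply {A : Type*} [CommRing A] (f : Finset (Fin (n + 1)) → A) (T : Finset (Fin n)) :
    RR A n f T = - (-1) ^ T.card * f (insert (Fin.last n) (up T)) := rfl

theorem dn_last_up (T : Finset (Fin n)) : dn (insert (Fin.last n) (up T)) = T := by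
  rw [dn_insert_last, dn_up]

include F3 in
theorem RR_mem {b : Fin n →₀ ℕ} {i : ℕ} {f : Finset (Fin (n + 1)) → ℤ}
    (hf : f ∈ Zc ℤ (KK P2 (sn b 2)) (i + 1)) : RR ℤ n f ∈ Zc ℤ (KK P1 b) i := by
  rw [mem_Zc] at hf ⊢
  constructor
  · intro T hT
    rw [RR_apply] at hT
    obtain ⟨⟨h1, h2⟩, h3⟩ := hf.1 _ (fun h => hT (by rw [h, mul_zero]))
    rw [ind_le_sn (by omega), dn_last_up] at h1
    rw [sn_sub, dn_last_up, ind_apply, if_pos (Finset.mem_insert_self _ _)] at h2
    rw [Finset.card_insert_of_notMem (last_notMem_up T), card_up] at h3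
    exact ⟨⟨h1, F3 _ h2⟩, by omega⟩
  · intro T
    have h1 := hf.2 (insert (Fin.last n) (up T))
    unfold cd at h1 ⊢
    rw [sum_compl_last_mem (Finset.mem_insert_self _ _), dn_last_up] at h1
    have h2 : ∑ j ∈ Tᶜ, sg ℤ j T * RR ℤ n f (insert j T) =
        - (-1) ^ (T.card + 1) * ∑ j ∈ Tᶜ, sg ℤ (Fin.castSucc j) (insert (Fin.last n) (up T)) *
          f (insert (Fin.castSucc j) (insert (Fin.last n) (up T))) := by
      rw [Finset.mul_sum]
      refine Finset.sum_congr rfl fun j hj => ?_
      rw [Finset.mem_compl] at hj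
      rw [RR_apply, Finset.card_insert_of_notMem hj, up_insert, sg_castSucc, dn_last_up,
        Finset.insert_comm]
      ring
    rw [h2, h1, mul_zero]

include F1 F2 F3 in
theorem lf_of_lf {b : Fin n →₀ ℕ} {i : ℕ} (hb : i + 3 ≤ ∑ v, b v)
    (h : Lf k (KK P2 (sn b 2)) (i + 1)) : Lf k (KK P1 b) i := by
  classical
  intro a ha
  obtain ⟨ha1, ha2⟩ := mem_Zc.1 ha
  obtain ⟨v, hv⟩ : ∃ v, 1 ≤ b v := by
    by_contra hcon
    push Not at hcon
    have : ∑ v, b v = 0 := Finset.sum_eq_zero fun v _ => by have := hcon v; omega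
    omega
  set A := Pool.Agent.H677R3.EdgeReg.hv v a with hA
  have hcdA : ∀ T, cd A T = a T := by
    intro T
    have h5 := homotopy v a T
    have h6 : Pool.Agent.H677R3.EdgeReg.hv v (cd a) T = 0 := by
      unfold Pool.Agent.H677R3.EdgeReg.hv
      split_ifs
      · rw [ha2, mul_zero]
      · rfl
    rw [h6, add_zero] at h5
    exact h5
  have hAs : ∀ T, A T ≠ 0 → ind T ≤ b ∧ T.card = i + 1 := by
    intro T hT
    rw [hA] at hT
    unfold Pool.Agent.H677R3.EdgeReg.hv at hT
    split_ifs at hT with hvT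
    · have h3 : a (T.erase v) ≠ 0 := fun h' => hT (by rw [h', mul_zero])
      obtain ⟨h4, h5⟩ := ha1 _ h3
      have h6 : 0 < T.card := Finset.card_pos.mpr ⟨v, hvT⟩
      rw [Finset.card_erase_of_mem hvT] at h5
      refine ⟨fun x => ?_, by omega⟩
      by_cases hx : x = v
      · rw [hx, ind_apply, if_pos hvT]
        exact hv
      · have := h4.1 x
        rw [ind_apply] at this ⊢
        simp only [Finset.mem_erase, ne_eq, hx, not_false_iff, true_and] at this
        exact this
    · exact absurd rfl hT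
  set F : Finset (Fin (n + 1)) → k := fun T =>
    if Fin.last n ∈ T then - (-1) ^ (dn T).card * a (dn T) else A (dn T) with hF
  have hF1 : ∀ T, Fin.last n ∈ T → F T = - (-1) ^ (dn T).card * a (dn T) := fun T hT => if_pos hT
  have hF2 : ∀ T, Fin.last n ∉ T → F T = A (dn T) := fun T hT => if_neg hT
  have hFmem : F ∈ Zc k (KK P2 (sn b 2)) (i + 1) := by
    rw [mem_Zc]
    constructor
    · intro T hT
      by_cases hl : Fin.last n ∈ T
      · rw [hF1 T hl] at hT
        obtain ⟨⟨h3, h4⟩, h5⟩ := ha1 (dn T) (fun h => hT (by rw [h, mul_zero]))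
        have h6 := card_of_last_mem hl
        refine ⟨⟨(ind_le_sn (by omega) T).2 h3, ?_⟩, by omega⟩
        rw [sn_sub, ind_apply, if_pos hl]
        have h7 := sum_sub_ind h3
        exact F2 _ h4 (by omega)
      · rw [hF2 T hl] at hT
        obtain ⟨h3, h5⟩ := hAs (dn T) hT
        have h6 := card_of_last_notMem hl
        refine ⟨⟨(ind_le_sn (by omega) T).2 h3, ?_⟩, by omega⟩
        rw [sn_sub, ind_apply, if_neg hl]
        have h7 := sum_sub_ind h3
        exact F1 _ (by omega)
    · intro T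
      unfold cd
      by_cases hl : Fin.last n ∈ T
      · rw [sum_compl_last_mem hl]
        have h3 : ∑ j ∈ (dn T)ᶜ, sg k (Fin.castSucc j) T * F (insert (Fin.castSucc j) T) =
            - (-1) ^ ((dn T).card + 1) * ∑ j ∈ (dn T)ᶜ, sg k j (dn T) * a (insert j (dn T)) := by
          rw [Finset.mul_sum]
          refine Finset.sum_congr rfl fun j hj => ?_
          rw [Finset.mem_compl] at hj
          rw [hF1 _ (Finset.mem_insert_of_mem hl), dn_insert_castSucc,
            Finset.card_insert_of_notMem hj, sg_castSucc]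
          ring
        have h4 := ha2 (dn T)
        unfold cd at h4
        rw [h3, h4, mul_zero]
      · rw [sum_compl_last_notMem hl]
        have h3 : ∑ j ∈ (dn T)ᶜ, sg k (Fin.castSucc j) T * F (insert (Fin.castSucc j) T) =
            cd A (dn T) := by
          unfold cd
          refine Finset.sum_congr rfl fun j hj => ?_
          have hl' : Fin.last n ∉ insert (Fin.castSucc j) T := by
            rw [Finset.mem_insert, not_or]
            exact ⟨Ne.symm (Fin.castSucc_ne_last j), hl⟩
          rw [hF2 _ hl', dn_insert_castSucc, sg_castSucc]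
        rw [h3, hcdA, hF1 _ (Finset.mem_insert_self _ _), dn_insert_last, sg_last hl,
          ← card_of_last_notMem hl]
        have h4 : (-1 : k) ^ (dn T).card * (-1) ^ (dn T).card = 1 := by
          rw [← mul_pow]
          simp
        calc a (dn T) + (-1) ^ (dn T).card * (- (-1) ^ (dn T).card * a (dn T))
            = a (dn T) - ((-1 : k) ^ (dn T).card * (-1) ^ (dn T).card) * a (dn T) := by ring
          _ = 0 := by rw [h4, one_mul, sub_self]
  have hRF : RR k n F = a := by
    funext T
    rw [RR_apply, hF1 _ (Finset.mem_insert_self _ _), dn_last_up]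
    have h4 : (-1 : k) ^ T.card * (-1) ^ T.card = 1 := by
      rw [← mul_pow]
      simp
    calc - (-1 : k) ^ T.card * (- (-1) ^ T.card * a T)
        = ((-1 : k) ^ T.card * (-1) ^ T.card) * a T := by ring
      _ = a T := by rw [h4, one_mul]
  have h1 := h hFmem
  rw [← hRF]
  have h2 : Submodule.map (RR k n) (spn k (Zc ℤ (KK P2 (sn b 2)) (i + 1))) ≤
      spn k (Zc ℤ (KK P1 b) i) := by
    unfold spn
    rw [Submodule.map_span, Submodule.span_le]
    rintro _ ⟨_, ⟨f, hf, rfl⟩, rfl⟩
    refine Submodule.subset_span ⟨RR ℤ n f, RR_mem F3 hf, ?_⟩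
    funext T
    unfold cst
    rw [RR_apply, RR_apply]
    push_cast
    rfl
  exact h2 ⟨F, h1, rfl⟩

end transfer

end Pool.Agent.X317.Cone
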