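import Mathlib
import Pool.Agent.X317.Cone.Slices

/-!
# Edge ideals, cones and the linear strand
-/

set_option autoImplicit false
set_option linter.all false

open Finset Pool.Agent.H677R3.EdgeReg MvPolynomial

namespace Pool.Agent.X317.Cone

variable {n : ℕ}

/-- The edge ideal of a graph. -/
noncomputable def edgeIdeal (k : Type*) [Field k] (G : SimpleGraph (Fin n)) :
    Ideal (MvPolynomial (Fin n) k) :=
  Ideal.span {p | ∃ u v, G.Adj u v ∧ p = X u * X v}

/-- The cone over a graph: the last vertex is new and is joined to all the other vertices. -/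
def cone (G : SimpleGraph (Fin n)) : SimpleGraph (Fin (n + 1)) where
  Adj x y := x ≠ y ∧ (x = Fin.last n ∨ y = Fin.last n ∨
    ∃ u v, G.Adj u v ∧ x = Fin.castSucc u ∧ y = Fin.castSucc v)
  symm := ⟨by
    rintro x y ⟨h, h'⟩
    refine ⟨h.symm, ?_⟩
    rcases h' with h' | h' | ⟨u, v, h1, h2, h3⟩
    · exact Or.inr (Or.inl h')
    · exact Or.inl h'
    · exact Or.inr (Or.inr ⟨v, u, h1.symm, h3, h2⟩)⟩
  loopless := ⟨fun x h => h.1 rfl⟩

/-- the exponent of the monomial of the pair -/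
noncomputable def pr {m : ℕ} (u v : Fin m) : Fin m →₀ ℕ :=
  Finsupp.single u 1 + Finsupp.single v 1

/-- the exponents of the monomials of the edge ideal -/
def PI (G : SimpleGraph (Fin n)) (c : Fin n → ℕ) : Prop := ∃ u v, G.Adj u v ∧ ⇑(pr u v) ≤ c

/-- the exponents of the monomials of the square of the edge ideal -/
def PI2 (G : SimpleGraph (Fin n)) (c : Fin n → ℕ) : Prop :=
  ∃ u v u' v', G.Adj u v ∧ G.Adj u' v' ∧ ⇑(pr u v + pr u' v') ≤ c

theorem PI_mono (G : SimpleGraph (Fin n)) (c c' : Fin n → ℕ) (h : PI G c) (hcc : c ≤ c') :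
    PI G c' := by
  obtain ⟨u, v, h1, h2⟩ := h
  exact ⟨u, v, h1, h2.trans hcc⟩

theorem PI2_mono (G : SimpleGraph (Fin n)) (c c' : Fin n → ℕ) (h : PI2 G c) (hcc : c ≤ c') :
    PI2 G c' := by
  obtain ⟨u, v, u', v', h1, h1', h2⟩ := h
  exact ⟨u, v, u', v', h1, h1', h2.trans hcc⟩

theorem X_mul_X (k : Type*) [Field k] (u v : Fin n) :
    (X u * X v : MvPolynomial (Fin n) k) = monomial (pr u v) 1 := by
  unfold pr X
  rw [monomial_mul, mul_one]

theorem edgeIdeal_eq (k : Type*) [Field k] (G : SimpleGraph (Fin n)) :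
    edgeIdeal k G = Ideal.span ((fun s => monomial s (1 : k)) '' {s | ∃ u v, G.Adj u v ∧
      s = pr u v}) := by
  unfold edgeIdeal
  congr 1
  ext q
  constructor
  · rintro ⟨u, v, h, rfl⟩
    exact ⟨pr u v, ⟨u, v, h, rfl⟩, (X_mul_X k u v).symm⟩
  · rintro ⟨_, ⟨u, v, h, rfl⟩, rfl⟩
    exact ⟨u, v, h, (X_mul_X k u v).symm⟩

theorem mem_edgeIdeal (k : Type*) [Field k] (G : SimpleGraph (Fin n))
    (p : MvPolynomial (Fin n) k) : p ∈ edgeIdeal k G ↔ ∀ c ∈ p.support, PI G ⇑c := by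
  rw [edgeIdeal_eq, mem_ideal_span_monomial_image]
  refine forall₂_congr fun c _ => ?_
  constructor
  · rintro ⟨_, ⟨u, v, h, rfl⟩, hle⟩
    exact ⟨u, v, h, hle⟩
  · rintro ⟨u, v, h, hle⟩
    exact ⟨_, ⟨u, v, h, rfl⟩, hle⟩

theorem mem_edgeIdeal_sq (k : Type*) [Field k] (G : SimpleGraph (Fin n))
    (p : MvPolynomial (Fin n) k) : p ∈ edgeIdeal k G ^ 2 ↔ ∀ c ∈ p.support, PI2 G ⇑c := by
  have h1 : edgeIdeal k G ^ 2 = Ideal.span ((fun s => monomial s (1 : k)) ''
      {s | ∃ u v u' v', G.Adj u v ∧ G.Adj u' v' ∧ s = pr u v + pr u' v'}) := by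
    rw [pow_two, edgeIdeal_eq, Ideal.span_mul_span']
    congr 1
    ext f
    constructor
    · rintro ⟨_, ⟨_, ⟨u, v, h, rfl⟩, rfl⟩, _, ⟨_, ⟨u', v', h', rfl⟩, rfl⟩, rfl⟩
      exact ⟨_, ⟨u, v, u', v', h, h', rfl⟩, by simp only [monomial_mul, mul_one]⟩
    · rintro ⟨_, ⟨u, v, u', v', h, h', rfl⟩, rfl⟩
      exact ⟨_, ⟨_, ⟨u, v, h, rfl⟩, rfl⟩, _, ⟨_, ⟨u', v', h', rfl⟩, rfl⟩,
        by simp only [monomial_mul, mul_one]⟩
  rw [h1, mem_ideal_span_monomial_image]
  refine forall₂_congr fun c _ => ?_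
  constructor
  · rintro ⟨_, ⟨u, v, u', v', h, h', rfl⟩, hle⟩
    exact ⟨u, v, u', v', h, h', hle⟩
  · rintro ⟨u, v, u', v', h, h', hle⟩
    exact ⟨_, ⟨u, v, u', v', h, h', rfl⟩, hle⟩

theorem single_le_of {m : ℕ} {c : Fin m →₀ ℕ} {u : Fin m} (h : 1 ≤ c u) :
    Finsupp.single u 1 ≤ c := by
  rw [Finsupp.single_le_iff]
  exact h

theorem exists_single {m : ℕ} {c : Fin m →₀ ℕ} (h : 1 ≤ ∑ v, c v) :
    ∃ u : Fin m, (Finsupp.single u 1 : Fin m →₀ ℕ) ≤ c ∧
      ∑ v, (c - (Finsupp.single u 1 : Fin m →₀ ℕ)) v + 1 = ∑ v, c v := by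
  obtain ⟨u, hu⟩ : ∃ u, 1 ≤ c u := by
    by_contra hcon
    push Not at hcon
    have : ∑ v, c v = 0 := Finset.sum_eq_zero fun v _ => by have := hcon v; omega
    omega
  refine ⟨u, single_le_of hu, ?_⟩
  have h2 : ∑ v, c v = ∑ v, (c - (Finsupp.single u 1 : Fin m →₀ ℕ)) v +
      ∑ v, (Finsupp.single u 1 : Fin m →₀ ℕ) v := by
    rw [← Finset.sum_add_distrib]
    refine Finset.sum_congr rfl fun x _ => ?_
    have := (single_le_of hu) x
    rw [Finsupp.coe_tsub, Pi.sub_apply]
    omega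
  rw [h2]
  congr 1
  simp [Finsupp.single_apply]

theorem cone_last {G : SimpleGraph (Fin n)} (u : Fin n) :
    (cone G).Adj (Fin.castSucc u) (Fin.last n) :=
  ⟨Fin.castSucc_ne_last u, Or.inr (Or.inl rfl)⟩

theorem cone_castSucc {G : SimpleGraph (Fin n)} {u v : Fin n} (h : G.Adj u v) :
    (cone G).Adj (Fin.castSucc u) (Fin.castSucc v) :=
  ⟨fun h' => h.ne (Fin.castSucc_injective n h'), Or.inr (Or.inr ⟨u, v, h, rfl, rfl⟩)⟩

theorem single_castSucc_last (u : Fin n) : (Finsupp.single (Fin.castSucc u) 1 :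
    Fin (n + 1) →₀ ℕ) (Fin.last n) = 0 := by
  rw [Finsupp.single_apply, if_neg (Fin.castSucc_ne_last u)]

theorem single_castSucc_castSucc (u v : Fin n) : (Finsupp.single (Fin.castSucc u) 1 :
    Fin (n + 1) →₀ ℕ) (Fin.castSucc v) = (Finsupp.single u 1 : Fin n →₀ ℕ) v := by
  rw [Finsupp.single_apply, Finsupp.single_apply]
  by_cases h : u = v
  · rw [if_pos h, if_pos (by rw [h])]
  · rw [if_neg h, if_neg (fun h' => h (Fin.castSucc_injective n h'))]

theorem single_last_castSucc (v : Fin n) : (Finsupp.single (Fin.last n) 1 :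
    Fin (n + 1) →₀ ℕ) (Fin.castSucc v) = 0 := by
  rw [Finsupp.single_apply, if_neg (Ne.symm (Fin.castSucc_ne_last v))]

theorem single_last_last : (Finsupp.single (Fin.last n) 1 :
    Fin (n + 1) →₀ ℕ) (Fin.last n) = 1 := by
  rw [Finsupp.single_apply, if_pos rfl]

theorem F1 (G : SimpleGraph (Fin n)) (c : Fin n →₀ ℕ) (h : 2 ≤ ∑ v, c v) :
    PI2 (cone G) ⇑(sn c 2) := by
  obtain ⟨u, hu, hu'⟩ := exists_single (c := c) (by omega)
  obtain ⟨v, hv, hv'⟩ := exists_single (c := c - Finsupp.single u 1) (by omega)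
  refine ⟨Fin.castSucc u, Fin.last n, Fin.castSucc v, Fin.last n, cone_last u, cone_last v, ?_⟩
  intro x
  unfold pr
  simp only [Finsupp.coe_add, Pi.add_apply]
  induction x using Fin.lastCases with
  | last =>
    rw [sn_last, single_castSucc_last, single_castSucc_last, single_last_last]
    omega
  | cast j =>
    rw [sn_castSucc, single_castSucc_castSucc, single_castSucc_castSucc, single_last_castSucc]
    have h1 := hu j
    have h2 := hv j
    simp only [Finsupp.coe_tsub, Pi.sub_apply] at h2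
    omega

theorem F2 (G : SimpleGraph (Fin n)) (c : Fin n →₀ ℕ) (hc : PI G ⇑c) (h : 3 ≤ ∑ v, c v) :
    PI2 (cone G) ⇑(sn c 1) := by
  obtain ⟨u, v, huv, hle⟩ := hc
  have hle' : pr u v ≤ c := hle
  have h1 : 1 ≤ ∑ x, (c - pr u v) x := by
    have h2 : ∑ x, c x = ∑ x, (c - pr u v) x + ∑ x, pr u v x := by
      rw [← Finset.sum_add_distrib]
      refine Finset.sum_congr rfl fun x _ => ?_
      have := hle' x
      rw [Finsupp.coe_tsub, Pi.sub_apply]
      omega
    have h3 : ∑ x, pr u v x = 2 := by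
      unfold pr
      simp only [Finsupp.coe_add, Pi.add_apply, Finset.sum_add_distrib]
      simp [Finsupp.single_apply]
    omega
  obtain ⟨w, hw, -⟩ := exists_single h1
  refine ⟨Fin.castSucc u, Fin.castSucc v, Fin.castSucc w, Fin.last n, cone_castSucc huv,
    cone_last w, ?_⟩
  intro x
  unfold pr
  simp only [Finsupp.coe_add, Pi.add_apply]
  induction x using Fin.lastCases with
  | last =>
    rw [sn_last, single_castSucc_last, single_castSucc_last, single_castSucc_last,
      single_last_last]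
    omega
  | cast j =>
    rw [sn_castSucc, single_castSucc_castSucc, single_castSucc_castSucc,
      single_castSucc_castSucc, single_last_castSucc]
    have h1 := hle' j
    have h2 := hw j
    unfold pr at h1 h2
    simp only [Finsupp.coe_tsub, Pi.sub_apply, Finsupp.coe_add, Pi.add_apply] at h1 h2
    omega

theorem F3 (G : SimpleGraph (Fin n)) (c : Fin n →₀ ℕ) (h : PI2 (cone G) ⇑(sn c 1)) :
    PI G ⇑c := by
  obtain ⟨x, y, x', y', hxy, hxy', hle⟩ := h
  have key : ∀ x y : Fin (n + 1), (cone G).Adj x y → pr x y ≤ sn c 1 →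
      1 ≤ pr x y (Fin.last n) ∨ PI G ⇑c := by
    intro x y hxy hle
    rcases hxy.2 with rfl | rfl | ⟨u, v, h1, rfl, rfl⟩
    · left
      unfold pr
      rw [Finsupp.add_apply, single_last_last]
      omega
    · left
      unfold pr
      rw [Finsupp.add_apply, single_last_last]
      omega
    · right
      refine ⟨u, v, h1, fun j => ?_⟩
      have h2 := hle (Fin.castSucc j)
      unfold pr at h2 ⊢
      rw [Finsupp.add_apply, single_castSucc_castSucc, single_castSucc_castSucc,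
        sn_castSucc] at h2
      exact h2
  have h1 : pr x y ≤ sn c 1 := fun z => by
    have := hle z
    simp only [Finsupp.coe_add, Pi.add_apply] at this
    omega
  have h2 : pr x' y' ≤ sn c 1 := fun z => by
    have := hle z
    simp only [Finsupp.coe_add, Pi.add_apply] at this
    omega
  rcases key x y hxy h1 with h3 | h3
  · rcases key x' y' hxy' h2 with h4 | h4
    · exfalso
      have := hle (Fin.last n)
      simp only [Finsupp.coe_add, Pi.add_apply, sn_last] at this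
      omega
    · exact h4
  · exact h3

end Pool.Agent.X317.Cone
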