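import Mathlib
import Pool.Agent.X317.Cone.Graph

/-!
# The linear strand of an edge ideal
-/

set_option autoImplicit false
set_option linter.all false

open Finset Pool.Agent.H677R3.EdgeReg MvPolynomial

namespace Pool.Agent.X317.Cone

variable {n : ℕ}

/-- the homotopy as a linear map -/
def hvL (A : Type*) [CommRing A] (v : Fin n) : (Finset (Fin n) → A) →ₗ[A] (Finset (Fin n) → A) where
  toFun a := Pool.Agent.H677R3.EdgeReg.hv v a
  map_add' a b := by
    funext T
    rw [Pi.add_apply]
    unfold Pool.Agent.H677R3.EdgeReg.hv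
    split_ifs
    · rw [Pi.add_apply]
      ring
    · rw [add_zero]
  map_smul' c a := by
    funext T
    rw [Pi.smul_apply]
    unfold Pool.Agent.H677R3.EdgeReg.hv
    split_ifs
    · rw [Pi.smul_apply, RingHom.id_apply, smul_eq_mul, smul_eq_mul]
      ring
    · rw [smul_zero]

theorem sg_cast (k : Type*) [CommRing k] (j : Fin n) (T : Finset (Fin n)) :
    ((sg ℤ j T : ℤ) : k) = sg k j T := by
  unfold sg
  push_cast
  rfl

theorem cst_hv (k : Type*) [CommRing k] (v : Fin n) (a : Finset (Fin n) → ℤ) :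
    cst k (Pool.Agent.H677R3.EdgeReg.hv v a) = Pool.Agent.H677R3.EdgeReg.hv v (cst k a) := by
  funext T
  unfold cst Pool.Agent.H677R3.EdgeReg.hv
  split_ifs
  · rw [Int.cast_mul, sg_cast]
  · rw [Int.cast_zero]

theorem cst_cd (k : Type*) [CommRing k] (a : Finset (Fin n) → ℤ) :
    cst k (cd a) = cd (cst k a) := by
  funext T
  rw [cd_cst]
  rfl

theorem cd_hv {A : Type*} [CommRing A] (v : Fin n) {a : Finset (Fin n) → A}
    (h : ∀ T, cd a T = 0) : cd (Pool.Agent.H677R3.EdgeReg.hv v a) = a := by
  funext T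
  have h5 := homotopy v a T
  have h6 : Pool.Agent.H677R3.EdgeReg.hv v (cd a) T = 0 := by
    unfold Pool.Agent.H677R3.EdgeReg.hv
    split_ifs
    · rw [h, mul_zero]
    · rfl
  rw [h6, add_zero] at h5
  exact h5

theorem lf_toggle (k : Type*) [Field k] {Kf : Finset (Fin n) → Prop}
    (hdown : ∀ T j, j ∉ T → Kf (insert j T) → Kf T) (v : Fin n)
    (hv : ∀ T, v ∉ T → Kf T → Kf (insert v T)) (i : ℕ) : Lf k Kf i := by
  classical
  intro a ha
  obtain ⟨ha1, ha2⟩ := mem_Zc.1 ha
  have h1 : a = ∑ T, a T • (Pi.single T 1 : Finset (Fin n) → k) := by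
    funext T
    rw [Finset.sum_apply]
    simp [Pi.single_apply]
  have h2 : a = ∑ T, a T • cdL k (hvL k v (Pi.single T 1)) := by
    have h3 : cdL k (hvL k v a) = a := cd_hv v ha2
    conv_lhs => rw [← h3, h1]
    rw [map_sum, map_sum]
    refine Finset.sum_congr rfl fun T _ => ?_
    rw [map_smul, map_smul]
  rw [h2]
  refine Submodule.sum_mem _ fun T _ => ?_
  by_cases hT : a T = 0
  · rw [hT, zero_smul]
    exact Submodule.zero_mem _
  · obtain ⟨h3, h4⟩ := ha1 T hT
    refine Submodule.smul_mem _ _ (Submodule.subset_span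
      ⟨cd (Pool.Agent.H677R3.EdgeReg.hv v (Pi.single T 1)), ?_, ?_⟩)
    · refine Bc_le hdown i ?_
      rw [mem_Bc]
      refine ⟨Pool.Agent.H677R3.EdgeReg.hv v (Pi.single T 1), fun T' hT' => ?_, fun _ => rfl⟩
      unfold Pool.Agent.H677R3.EdgeReg.hv at hT'
      split_ifs at hT' with hvT
      · have h5 : (Pi.single T 1 : Finset (Fin n) → ℤ) (T'.erase v) ≠ 0 := fun h =>
          hT' (by rw [h, mul_zero])
        have h6 : T'.erase v = T := by
          by_contra h
          exact h5 (Pi.single_eq_of_ne h 1)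
        have h7 : T' = insert v T := by
          rw [← h6, Finset.insert_erase hvT]
        have h8 : v ∉ T := by
          rw [← h6]
          exact Finset.notMem_erase _ _
        rw [h7]
        exact ⟨hv T h8 h3, by rw [Finset.card_insert_of_notMem h8, h4]⟩
      · exact absurd rfl hT'
    · rw [cst_cd, cst_hv]
      have h5 : cst k (Pi.single T 1 : Finset (Fin n) → ℤ) = Pi.single T 1 := by
        funext T'
        unfold cst
        rw [Pi.single_apply, Pi.single_apply]
        split_ifs <;> simp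
      rw [h5]
      rfl

/-- the chain of a function on the vertices -/
noncomputable def AAL (A : Type*) [CommRing A] (W : Finset (Fin n)) :
    (Fin n → A) →ₗ[A] (Finset (Fin n) → A) where
  toFun ψ T := ∑ u ∈ W, if T = W.erase u then sg A u T * ψ u else 0
  map_add' ψ ψ' := by
    funext T
    rw [Pi.add_apply, ← Finset.sum_add_distrib]
    refine Finset.sum_congr rfl fun u _ => ?_
    split_ifs
    · rw [Pi.add_apply]
      ring
    · rw [add_zero]
  map_smul' c ψ := by
    funext T
    rw [Pi.smul_apply, Finset.smul_sum]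
    refine Finset.sum_congr rfl fun u _ => ?_
    split_ifs
    · rw [Pi.smul_apply, RingHom.id_apply, smul_eq_mul, smul_eq_mul]
      ring
    · rw [smul_zero]

theorem erase_inj {W : Finset (Fin n)} {u v : Fin n} (hu : u ∈ W) (h : W.erase u = W.erase v) :
    u = v := by
  by_contra hne
  have h1 : u ∈ W.erase v := Finset.mem_erase.2 ⟨hne, hu⟩
  rw [← h] at h1
  exact Finset.notMem_erase _ _ h1

theorem AAL_erase {A : Type*} [CommRing A] {W : Finset (Fin n)} (ψ : Fin n → A) {u : Fin n}
    (hu : u ∈ W) : AAL A W ψ (W.erase u) = sg A u (W.erase u) * ψ u := by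
  change ∑ v ∈ W, _ = _
  rw [Finset.sum_eq_single_of_mem u hu]
  · rw [if_pos rfl]
  · intro v _ hvu
    rw [if_neg (fun h => hvu (erase_inj hu h).symm)]

theorem AAL_supp {A : Type*} [CommRing A] {W : Finset (Fin n)} {ψ : Fin n → A}
    {T : Finset (Fin n)} (h : AAL A W ψ T ≠ 0) : ∃ u ∈ W, T = W.erase u := by
  by_contra hcon
  push Not at hcon
  apply h
  change ∑ u ∈ W, _ = _
  exact Finset.sum_eq_zero fun u hu => if_neg (hcon u hu)

theorem cd_AAL {A : Type*} [CommRing A] {W : Finset (Fin n)} (ψ : Fin n → A) {u v : Fin n}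
    (hu : u ∈ W) (hv : v ∈ W) (huv : u ≠ v) :
    cd (AAL A W ψ) ((W.erase u).erase v) =
      sg A u ((W.erase u).erase v) * sg A v (W.erase v) * (ψ v - ψ u) := by
  classical
  set T := (W.erase u).erase v with hT
  have huT : u ∉ T := fun h => (Finset.mem_erase.1 (Finset.mem_of_mem_erase h)).1 rfl
  have hvT : v ∉ T := Finset.notMem_erase _ _
  have e1 : insert v T = W.erase u := Finset.insert_erase (Finset.mem_erase.2 ⟨Ne.symm huv, hv⟩)
  have e2 : insert u T = W.erase v := by
    rw [hT, Finset.erase_right_comm]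
    exact Finset.insert_erase (Finset.mem_erase.2 ⟨huv, hu⟩)
  have h1 : cd (AAL A W ψ) T = ∑ j ∈ ({u, v} : Finset (Fin n)),
      sg A j T * AAL A W ψ (insert j T) := by
    unfold cd
    symm
    refine Finset.sum_subset ?_ ?_
    · intro j hj
      rw [Finset.mem_insert, Finset.mem_singleton] at hj
      rw [Finset.mem_compl]
      rcases hj with rfl | rfl
      · exact huT
      · exact hvT
    · intro j hj hj'
      rw [Finset.mem_insert, Finset.mem_singleton, not_or] at hj'
      rw [Finset.mem_compl] at hj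
      by_contra h
      obtain ⟨w, hw, hjw⟩ := AAL_supp (fun h' => h (by rw [h', mul_zero]))
      have h2 : j ∈ W := by
        have : j ∈ W.erase w := by
          rw [← hjw]
          exact Finset.mem_insert_self _ _
        exact Finset.mem_of_mem_erase this
      apply hj
      rw [hT]
      exact Finset.mem_erase.2 ⟨hj'.2, Finset.mem_erase.2 ⟨hj'.1, h2⟩⟩
  rw [h1, Finset.sum_pair huv, e1, e2, AAL_erase ψ hu, AAL_erase ψ hv]
  have h2 := sg_swap (k := A) (Ne.symm huv) hvT huT
  -- sg u T * sg v (insert u T) + sg v T * sg u (insert v T) = 0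
  rw [e1, e2] at h2
  have h3 : sg A v T * sg A u (W.erase u) = - (sg A u T * sg A v (W.erase v)) := by
    linear_combination h2
  calc sg A u T * (sg A v (W.erase v) * ψ v) + sg A v T * (sg A u (W.erase u) * ψ u)
      = sg A u T * sg A v (W.erase v) * ψ v + (sg A v T * sg A u (W.erase u)) * ψ u := by ring
    _ = _ := by rw [h3]; ring

theorem cst_AAL (k : Type*) [CommRing k] (W : Finset (Fin n)) (ψ : Fin n → ℤ) :
    cst k (AAL ℤ W ψ) = AAL k W (fun u => (ψ u : k)) := by
  funext T
  change ((∑ u ∈ W, if T = W.erase u then sg ℤ u T * ψ u else 0 : ℤ) : k) = ∑ u ∈ W, _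
  rw [Int.cast_sum]
  refine Finset.sum_congr rfl fun u _ => ?_
  split_ifs
  · rw [Int.cast_mul, sg_cast]
  · rw [Int.cast_zero]

theorem ind_sub_ind {W T : Finset (Fin n)} (h : T ⊆ W) (x : Fin n) :
    (ind W - ind T) x = if x ∈ W \ T then 1 else 0 := by
  rw [Finsupp.coe_tsub, Pi.sub_apply, ind_apply, ind_apply]
  by_cases h1 : x ∈ W
  · by_cases h2 : x ∈ T <;> simp [h1, h2]
  · have h2 : x ∉ T := fun h' => h1 (h h')
    simp [h1, h2]

theorem sdiff_pair {W : Finset (Fin n)} {u v : Fin n} (hu : u ∈ W) (hv : v ∈ W) :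
    W \ ((W.erase u).erase v) = {u, v} := by
  ext x
  simp only [Finset.mem_sdiff, Finset.mem_erase, Finset.mem_insert, Finset.mem_singleton]
  constructor
  · rintro ⟨h1, h2⟩
    by_contra h3
    rw [not_or] at h3
    exact h2 ⟨h3.2, h3.1, h1⟩
  · rintro (rfl | rfl)
    · exact ⟨hu, fun h => h.2.1 rfl⟩
    · exact ⟨hv, fun h => h.1 rfl⟩

theorem KK_pair {G : SimpleGraph (Fin n)} {W : Finset (Fin n)} {u v : Fin n} (hu : u ∈ W)
    (hv : v ∈ W) : KK (PI G) (ind W) ((W.erase u).erase v) ↔ G.Adj u v := by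
  have hsub : (W.erase u).erase v ⊆ W := (Finset.erase_subset _ _).trans (Finset.erase_subset _ _)
  have hle : ind ((W.erase u).erase v) ≤ ind W := by
    intro x
    rw [ind_apply, ind_apply]
    split_ifs with h1 h2
    · exact le_rfl
    · exact absurd (hsub h1) h2
    · omega
    · exact le_rfl
  unfold KK
  rw [and_iff_right hle]
  constructor
  · rintro ⟨x, y, hxy, hle'⟩
    have h1 : ∀ z, 1 ≤ pr x y z → z = u ∨ z = v := by
      intro z hz
      have h2 : pr x y z ≤ (ind W - ind ((W.erase u).erase v)) z := hle' z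
      rw [ind_sub_ind hsub, sdiff_pair hu hv] at h2
      by_contra h3
      have h4 : z ∉ ({u, v} : Finset (Fin n)) := by
        rw [Finset.mem_insert, Finset.mem_singleton]
        exact h3
      rw [if_neg h4] at h2
      omega
    have hx := h1 x (by
      unfold pr
      rw [Finsupp.add_apply, Finsupp.single_eq_same]
      omega)
    have hy := h1 y (by
      unfold pr
      rw [Finsupp.add_apply, Finsupp.single_eq_same]
      omega)
    rcases hx with rfl | rfl
    · rcases hy with rfl | rfl
      · exact absurd rfl hxy.ne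
      · exact hxy
    · rcases hy with rfl | rfl
      · exact hxy.symm
      · exact absurd rfl hxy.ne
  · intro h
    refine ⟨u, v, h, fun z => ?_⟩
    rw [ind_sub_ind hsub, sdiff_pair hu hv]
    unfold pr
    rw [Finsupp.add_apply, Finsupp.single_apply, Finsupp.single_apply]
    have hne := h.ne
    by_cases hz1 : u = z
    · have hz2 : v ≠ z := fun h' => hne (hz1.trans h'.symm)
      rw [if_pos hz1, if_neg hz2, if_pos (by rw [hz1]; simp)]
      exact Nat.le_refl 1
    · by_cases hz2 : v = z
      · rw [if_neg hz1, if_pos hz2, if_pos (by rw [hz2]; simp)]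
      · rw [if_neg hz1, if_neg hz2]
        exact Nat.zero_le _

theorem erase_erase_of_card {W T : Finset (Fin n)} {i : ℕ} (hW : W.card = i + 2) (hT : T ⊆ W)
    (hTi : T.card = i) : ∃ u ∈ W, ∃ v ∈ W, u ≠ v ∧ T = (W.erase u).erase v := by
  classical
  have h1 : (W \ T).card = 2 := by
    rw [Finset.card_sdiff_of_subset hT]
    omega
  obtain ⟨u, v, huv, h2⟩ := Finset.card_eq_two.1 h1
  have hu : u ∈ W \ T := by rw [h2]; simp
  have hv : v ∈ W \ T := by rw [h2]; simp
  refine ⟨u, (Finset.mem_sdiff.1 hu).1, v, (Finset.mem_sdiff.1 hv).1, huv, ?_⟩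
  ext x
  simp only [Finset.mem_erase]
  constructor
  · intro hx
    refine ⟨?_, ?_, hT hx⟩
    · rintro rfl
      exact (Finset.mem_sdiff.1 hv).2 hx
    · rintro rfl
      exact (Finset.mem_sdiff.1 hu).2 hx
  · rintro ⟨h3, h4, h5⟩
    by_contra h6
    have h7 : x ∈ W \ T := Finset.mem_sdiff.2 ⟨h5, h6⟩
    rw [h2, Finset.mem_insert, Finset.mem_singleton] at h7
    rcases h7 with h7 | h7
    · exact h4 h7
    · exact h3 h7

theorem cd_AAL_mem {A : Type*} [CommRing A] {G : SimpleGraph (Fin n)} {W : Finset (Fin n)} {i : ℕ}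
    (hW : W.card = i + 2) {ψ : Fin n → A}
    (hψ : ∀ u ∈ W, ∀ v ∈ W, u ≠ v → ¬ G.Adj u v → ψ u = ψ v) :
    cd (AAL A W ψ) ∈ Zc A (KK (PI G) (ind W)) i := by
  classical
  rw [mem_Zc]
  refine ⟨fun T hT => ?_, fun T => cd_cd _ T⟩
  have h1 : T ⊆ W ∧ T.card = i := by
    unfold cd at hT
    obtain ⟨j, hj, hj2⟩ := Finset.exists_ne_zero_of_sum_ne_zero hT
    rw [Finset.mem_compl] at hj
    obtain ⟨w, hw, hjw⟩ := AAL_supp (fun h' => hj2 (by rw [h', mul_zero]))
    have h2 : insert j T ⊆ W := by
      rw [hjw]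
      exact Finset.erase_subset _ _
    have h3 := congrArg Finset.card hjw
    rw [Finset.card_insert_of_notMem hj, Finset.card_erase_of_mem hw] at h3
    exact ⟨(Finset.subset_insert _ _).trans h2, by omega⟩
  obtain ⟨u, hu, v, hv, huv, rfl⟩ := erase_erase_of_card hW h1.1 h1.2
  refine ⟨(KK_pair hu hv).2 ?_, h1.2⟩
  by_contra hadj
  apply hT
  rw [cd_AAL ψ hu hv huv, hψ u hu v hv huv hadj, sub_self, mul_zero]

theorem lf_strand (k : Type*) [Field k] (G : SimpleGraph (Fin n)) {W : Finset (Fin n)} {i : ℕ}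
    (hW : W.card = i + 2) : Lf k (KK (PI G) (ind W)) i := by
  classical
  intro a ha
  obtain ⟨ha1, ha2⟩ := mem_Zc.1 ha
  obtain ⟨v0, hv0⟩ : W.Nonempty := Finset.card_pos.1 (by omega)
  set A := Pool.Agent.H677R3.EdgeReg.hv v0 a with hA
  have hcdA : cd A = a := cd_hv v0 ha2
  have hsubW : ∀ T : Finset (Fin n), ind T ≤ ind W → T ⊆ W := by
    intro T h x hx
    have := h x
    rw [ind_apply, ind_apply, if_pos hx] at this
    by_contra h1
    rw [if_neg h1] at this
    omega
  have hAs : ∀ T, A T ≠ 0 → ∃ u ∈ W, T = W.erase u := by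
    intro T hT
    rw [hA] at hT
    unfold Pool.Agent.H677R3.EdgeReg.hv at hT
    split_ifs at hT with hvT
    · have h3 : a (T.erase v0) ≠ 0 := fun h' => hT (by rw [h', mul_zero])
      obtain ⟨h4, h5⟩ := ha1 _ h3
      have h6 : 0 < T.card := Finset.card_pos.mpr ⟨v0, hvT⟩
      rw [Finset.card_erase_of_mem hvT] at h5
      have h7 : T ⊆ W := by
        intro x hx
        by_cases hxv : x = v0
        · exact hxv ▸ hv0
        · exact hsubW _ h4.1 (Finset.mem_erase.2 ⟨hxv, hx⟩)
      have h8 : (W \ T).card = 1 := by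
        rw [Finset.card_sdiff_of_subset h7]
        omega
      obtain ⟨u, hu⟩ := Finset.card_eq_one.1 h8
      have huW : u ∈ W \ T := by rw [hu]; simp
      refine ⟨u, (Finset.mem_sdiff.1 huW).1, ?_⟩
      refine Finset.eq_of_subset_of_card_le ?_ ?_
      · intro x hx
        refine Finset.mem_erase.2 ⟨?_, h7 hx⟩
        rintro rfl
        exact (Finset.mem_sdiff.1 huW).2 hx
      · rw [Finset.card_erase_of_mem (Finset.mem_sdiff.1 huW).1]
        omega
    · exact absurd rfl hT
  set φ : Fin n → k := fun u => sg k u (W.erase u) * A (W.erase u) with hφ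
  have hAφ : AAL k W φ = A := by
    funext T
    by_cases h : ∃ u ∈ W, T = W.erase u
    · obtain ⟨u, hu, rfl⟩ := h
      rw [AAL_erase φ hu]
      simp only [hφ]
      rw [← mul_assoc, sg_mul_self, one_mul]
    · have h1 : AAL k W φ T = 0 := by
        by_contra h1
        exact h (AAL_supp h1)
      have h2 : A T = 0 := by
        by_contra h2
        exact h (hAs T h2)
      rw [h1, h2]
  have hrel : ∀ u ∈ W, ∀ v ∈ W, u ≠ v → ¬ G.Adj u v → φ u = φ v := by
    intro u hu v hv huv hadj
    have h1 : a ((W.erase u).erase v) = 0 := by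
      by_contra h
      exact hadj ((KK_pair hu hv).1 (ha1 _ h).1)
    rw [← hcdA, ← hAφ, cd_AAL φ hu hv huv] at h1
    have h2 : sg k u ((W.erase u).erase v) * sg k v (W.erase v) ≠ 0 := by
      intro h
      have h3 := sg_mul_self (k := k) u ((W.erase u).erase v)
      have h4 := sg_mul_self (k := k) v (W.erase v)
      have h5 : (1 : k) = 0 := by
        calc (1 : k) = (sg k u ((W.erase u).erase v) * sg k u ((W.erase u).erase v)) *
              (sg k v (W.erase v) * sg k v (W.erase v)) := by rw [h3, h4, one_mul]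
          _ = (sg k u ((W.erase u).erase v) * sg k v (W.erase v)) *
              (sg k u ((W.erase u).erase v) * sg k v (W.erase v)) := by ring
          _ = 0 := by rw [h, zero_mul]
      exact one_ne_zero h5
    exact (sub_eq_zero.1 ((mul_eq_zero.1 h1).resolve_left h2)).symm
  have hdec : φ = ∑ x ∈ univ.image φ, x • (fun u => (((if φ u = x then 1 else 0 : ℤ)) : k)) := by
    funext u
    rw [Finset.sum_apply]
    rw [Finset.sum_eq_single_of_mem (φ u) (Finset.mem_image_of_mem _ (Finset.mem_univ _))]
    · simp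
    · intro x _ hx
      rw [Pi.smul_apply, if_neg (Ne.symm hx), Int.cast_zero, smul_zero]
  have hfin : a = ∑ x ∈ univ.image φ, x • cst k (cd (AAL ℤ W (fun u => if φ u = x then 1 else 0))) := by
    have h1 : a = cdL k (AAL k W φ) := by
      rw [hAφ]
      exact hcdA.symm
    rw [h1]
    conv_lhs => rw [hdec]
    rw [map_sum, map_sum]
    refine Finset.sum_congr rfl fun x _ => ?_
    rw [map_smul, map_smul, cst_cd, cst_AAL]
    rfl
  rw [hfin]
  refine Submodule.sum_mem _ fun x _ => Submodule.smul_mem _ _ (Submodule.subset_span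
    ⟨_, cd_AAL_mem hW ?_, rfl⟩)
  intro u hu v hv huv hadj
  rw [hrel u hu v hv huv hadj]

/-- **The strands of small degree.** -/
theorem lf_small (k : Type*) [Field k] (G : SimpleGraph (Fin n)) (b : Fin n →₀ ℕ) (i : ℕ)
    (hb : ∑ v, b v < i + 3) : Lf k (KK (PI G) b) i := by
  classical
  by_cases h2 : ∃ v, 2 ≤ b v
  · obtain ⟨v, hv⟩ := h2
    refine lf_toggle k (KK_down (PI_mono G) b) v ?_ i
    rintro T hvT ⟨h1, u, w, huw, hle⟩
    have hval : ∀ x, x ≠ v → ind (insert v T) x = ind T x := by
      intro x hx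
      rw [ind_apply, ind_apply]
      simp [hx]
    have hv1 : ind (insert v T) v = 1 := by
      rw [ind_apply, if_pos (Finset.mem_insert_self _ _)]
    refine ⟨fun x => ?_, u, w, huw, fun x => ?_⟩
    · by_cases hx : x = v
      · rw [hx, hv1]
        omega
      · rw [hval x hx]
        exact h1 x
    · have h3 := hle x
      simp only [Finsupp.coe_tsub, Pi.sub_apply] at h3 ⊢
      by_cases hx : x = v
      · subst hx
        rw [hv1]
        have h4 : pr u w x ≤ 1 := by
          unfold pr
          rw [Finsupp.add_apply, Finsupp.single_apply, Finsupp.single_apply]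
          have := huw.ne
          split_ifs with h5 h6
          · exact absurd (h5.trans h6.symm) this
          · omega
          · omega
          · omega
        omega
      · rw [hval x hx]
        exact h3
  · push Not at h2
    have hbW : b = ind b.support := by
      ext x
      have := h2 x
      rw [ind_apply]
      by_cases hx : x ∈ b.support
      · rw [if_pos hx]
        rw [Finsupp.mem_support_iff] at hx
        omega
      · rw [if_neg hx]
        exact Finsupp.notMem_support_iff.1 hx
    have hcard : ∑ v, b v = b.support.card := by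
      conv_lhs => rw [hbW]
      exact sum_ind _
    by_cases h3 : b.support.card = i + 2
    · rw [hbW]
      exact lf_strand k G h3
    · intro a ha
      obtain ⟨ha1, ha2⟩ := mem_Zc.1 ha
      have h4 : a = 0 := by
        funext T
        by_contra hT
        obtain ⟨⟨h5, u, w, huw, hle⟩, h6⟩ := ha1 T hT
        have h7 := sum_sub_ind h5
        have h8 : ∑ x, pr u w x ≤ ∑ x, (b - ind T) x := Finset.sum_le_sum fun x _ => hle x
        have h9 : ∑ x, pr u w x = 2 := by
          unfold pr
          simp only [Finsupp.coe_add, Pi.add_apply, Finset.sum_add_distrib]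
          simp [Finsupp.single_apply]
        omega
      rw [h4]
      exact Submodule.zero_mem _

theorem lf_all (k : Type*) [Field k] (G : SimpleGraph (Fin n))
    (h : ∀ b i, Lf k (KK (PI2 (cone G)) b) i) (b : Fin n →₀ ℕ) (i : ℕ) :
    Lf k (KK (PI G) b) i := by
  by_cases hb : ∑ v, b v < i + 3
  · exact lf_small k G b i hb
  · exact lf_of_lf (F1 G) (F2 G) (F3 G) (by omega) (h (sn b 2) (i + 1))

/-- **Main comparison.** -/
theorem main (k : Type*) [Field k] (G : SimpleGraph (Fin n))
    (h : ∀ i j, gbetti (edgeIdeal k (cone G) ^ 2) i j = gbetti (edgeIdeal ℚ (cone G) ^ 2) i j)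
    (i j : ℕ) : gbetti (edgeIdeal k G) i j = gbetti (edgeIdeal ℚ G) i j :=
  gbetti_of_lf (PI_mono G) (mem_edgeIdeal k G) (mem_edgeIdeal ℚ G)
    (lf_all k G (lf_of_gbetti (PI2_mono (cone G)) (mem_edgeIdeal_sq k (cone G))
      (mem_edgeIdeal_sq ℚ (cone G)) h)) i j

end Pool.Agent.X317.Cone
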